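import Mathlib

/-!
# Restriction of an irreducible representation to a normal subgroup
-/

set_option autoImplicit false

namespace Q43.TB

open Module

section
variable {k : Type} [Field k] {V : Type} [AddCommGroup V] [Module k V] {Γ : Type} [Group Γ]

/-- the algebra generated by the image of a subgroup -/
abbrev Al (ρ : Γ →* Module.End k V) (Δ : Subgroup Γ) : Subalgebra k (Module.End k V) :=
  Algebra.adjoin k (ρ '' (Δ : Set Γ))

variable {ρ : Γ →* Module.End k V} {Δ : Subgroup Γ}

lemma mem_Al {s : Γ} (hs : s ∈ Δ) : ρ s ∈ Al ρ Δ := Algebra.subset_adjoin ⟨s, hs, rfl⟩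

lemma rho_inv (g : Γ) : ρ g⁻¹ * ρ g = 1 := by rw [← map_mul, inv_mul_cancel, map_one]

lemma rho_inv' (g : Γ) : ρ g * ρ g⁻¹ = 1 := by rw [← map_mul, mul_inv_cancel, map_one]

lemma rho_inv_apply (g : Γ) (v : V) : ρ g⁻¹ (ρ g v) = v := by
  rw [← Module.End.mul_apply, rho_inv, Module.End.one_apply]

lemma rho_inv_apply' (g : Γ) (v : V) : ρ g (ρ g⁻¹ v) = v := by
  rw [← Module.End.mul_apply, rho_inv', Module.End.one_apply]

lemma conj_mem (hn : Δ.Normal) (g : Γ) {a : Module.End k V} (ha : a ∈ Al ρ Δ) :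
    ρ g * a * ρ g⁻¹ ∈ Al ρ Δ := by
  induction ha using Algebra.adjoin_induction with
  | mem a ha =>
    obtain ⟨s, hs, rfl⟩ := ha
    rw [← map_mul, ← map_mul]
    exact mem_Al (hn.conj_mem s hs g)
  | algebraMap r =>
    rw [← Algebra.commutes, mul_assoc, rho_inv', mul_one]
    exact Subalgebra.algebraMap_mem _ r
  | add a b _ _ ha hb =>
    rw [mul_add, add_mul]
    exact add_mem ha hb
  | mul a b _ _ ha hb =>
    have h : ρ g * (a * b) * ρ g⁻¹ = (ρ g * a * ρ g⁻¹) * (ρ g * b * ρ g⁻¹) := by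
      have h1 : ρ g⁻¹ * (ρ g * b * ρ g⁻¹) = b * ρ g⁻¹ := by
        rw [← mul_assoc, ← mul_assoc, rho_inv, one_mul]
      rw [mul_assoc (ρ g * a), h1]
      simp only [mul_assoc]
    rw [h]
    exact mul_mem ha hb

lemma conj_mem' (hn : Δ.Normal) (g : Γ) {a : Module.End k V} (ha : a ∈ Al ρ Δ) :
    ρ g⁻¹ * a * ρ g ∈ Al ρ Δ := by
  have h := conj_mem hn g⁻¹ ha
  rwa [inv_inv] at h

lemma conj_apply (g : Γ) (a : Module.End k V) (v : V) :
    (ρ g⁻¹ * a * ρ g) (ρ g⁻¹ v) = ρ g⁻¹ (a v) := by
  rw [Module.End.mul_apply, Module.End.mul_apply, rho_inv_apply']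

/-- the action on submodules -/
def act (hn : Δ.Normal) (g : Γ) (U : Submodule (Al ρ Δ) V) : Submodule (Al ρ Δ) V where
  carrier := {v | ρ g⁻¹ v ∈ U}
  zero_mem' := by
    change ρ g⁻¹ 0 ∈ U
    rw [map_zero]
    exact U.zero_mem
  add_mem' := by
    intro v w hv hw
    change ρ g⁻¹ (v + w) ∈ U
    rw [map_add]
    exact U.add_mem hv hw
  smul_mem' := by
    intro a v hv
    change ρ g⁻¹ (a.1 v) ∈ U
    rw [← conj_apply]
    exact U.smul_mem (⟨_, conj_mem' hn g a.2⟩ : Al ρ Δ) hv

lemma mem_act {hn : Δ.Normal} {g : Γ} {U : Submodule (Al ρ Δ) V} {v : V} :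
    v ∈ act hn g U ↔ ρ g⁻¹ v ∈ U := Iff.rfl

lemma act_one {hn : Δ.Normal} (U : Submodule (Al ρ Δ) V) : act hn 1 U = U := by
  ext v
  rw [mem_act, inv_one, map_one, Module.End.one_apply]

lemma act_mul {hn : Δ.Normal} (g h : Γ) (U : Submodule (Al ρ Δ) V) :
    act hn (g * h) U = act hn g (act hn h U) := by
  ext v
  rw [mem_act, mem_act, mem_act, mul_inv_rev, map_mul, Module.End.mul_apply]

/-- as an order isomorphism -/
def actI (hn : Δ.Normal) (g : Γ) : Submodule (Al ρ Δ) V ≃o Submodule (Al ρ Δ) V where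
  toFun := act hn g
  invFun := act hn g⁻¹
  left_inv U := by rw [← act_mul, inv_mul_cancel, act_one]
  right_inv U := by rw [← act_mul, mul_inv_cancel, act_one]
  map_rel_iff' := by
    intro U U'
    constructor
    · intro h v hv
      have h1 : ρ g v ∈ act hn g U := by
        rw [mem_act, rho_inv_apply]
        exact hv
      have h2 := h h1
      change ρ g⁻¹ (ρ g v) ∈ U' at h2
      rwa [rho_inv_apply] at h2
    · intro h v hv
      exact h hv

lemma actI_apply (hn : Δ.Normal) (g : Γ) (U : Submodule (Al ρ Δ) V) :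
    actI hn g U = act hn g U := rfl

/-- a subspace which is stable under `Δ` -/
def toSub (W : Submodule k V) (hW : ∀ s ∈ Δ, ∀ x ∈ W, ρ s x ∈ W) : Submodule (Al ρ Δ) V where
  carrier := W
  zero_mem' := W.zero_mem
  add_mem' := W.add_mem
  smul_mem' := by
    intro a v hv
    obtain ⟨a, ha⟩ := a
    change a v ∈ W
    have h : ∀ x ∈ W, a x ∈ W := by
      clear hv
      induction ha using Algebra.adjoin_induction with
      | mem a ha =>
        obtain ⟨s, hs, rfl⟩ := ha
        exact hW s hs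
      | algebraMap r =>
        intro x hx
        rw [Module.algebraMap_end_apply]
        exact W.smul_mem r hx
      | add a b _ _ ha hb =>
        intro x hx
        exact W.add_mem (ha x hx) (hb x hx)
      | mul a b _ _ ha hb =>
        intro x hx
        exact ha _ (hb x hx)
    exact h v hv

lemma mem_toSub {W : Submodule k V} {hW : ∀ s ∈ Δ, ∀ x ∈ W, ρ s x ∈ W} {v : V} :
    v ∈ toSub W hW ↔ v ∈ W := Iff.rfl

/-- the underlying subspace -/
def ofSub (U : Submodule (Al ρ Δ) V) : Submodule k V where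
  carrier := U
  zero_mem' := U.zero_mem
  add_mem' := U.add_mem
  smul_mem' := by
    intro c v hv
    have h := U.smul_mem (algebraMap k (Al ρ Δ) c) hv
    rwa [algebraMap_smul] at h

lemma mem_ofSub {U : Submodule (Al ρ Δ) V} {v : V} : v ∈ ofSub U ↔ v ∈ U := Iff.rfl

lemma ofSub_stable {U : Submodule (Al ρ Δ) V} {s : Γ} (hs : s ∈ Δ) {v : V} (hv : v ∈ ofSub U) :
    ρ s v ∈ ofSub U :=
  U.smul_mem (⟨ρ s, mem_Al hs⟩ : Al ρ Δ) hv

/-- `V` is irreducible for `Γ` -/
def IrrG (ρ : Γ →* Module.End k V) : Prop :=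
  ∀ W : Submodule k V, (∀ g, ∀ x ∈ W, ρ g x ∈ W) → W = ⊥ ∨ W = ⊤

lemma bot_or_top (hn : Δ.Normal) (hirr : IrrG ρ) {U : Submodule (Al ρ Δ) V}
    (hU : ∀ g, act hn g U = U) : U = ⊥ ∨ U = ⊤ := by
  rcases hirr (ofSub U) (fun g x hx => by
    rw [mem_ofSub] at hx ⊢
    rw [← hU g, mem_act, rho_inv_apply]
    exact hx) with h | h
  · left
    rw [eq_bot_iff]
    intro v hv
    have h1 : v ∈ ofSub U := hv
    rw [h] at h1
    exact h1
  · right
    rw [eq_top_iff]
    intro v _
    have h1 : v ∈ ofSub U := by rw [h]; trivial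
    exact h1

lemma isSimple_act (hn : Δ.Normal) (g : Γ) {U : Submodule (Al ρ Δ) V}
    (hU : IsSimpleModule (Al ρ Δ) U) : IsSimpleModule (Al ρ Δ) (act hn g U) := by
  rw [isSimpleModule_iff_isAtom] at hU ⊢
  rw [← actI_apply]
  exact (OrderIso.isAtom_iff (actI hn g) U).2 hU

variable [FiniteDimensional k V]

/-- Clifford's theorem -/
theorem semisimple [Nontrivial V] (hn : Δ.Normal) (hirr : IrrG ρ) :
    IsSemisimpleModule (Al ρ Δ) V := by
  rw [← sSup_simples_eq_top_iff_isSemisimpleModule]
  have hart : IsArtinian (Al ρ Δ) V := isArtinian_of_tower k inferInstance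
  have hU : ∀ g, act hn g (sSup {m : Submodule (Al ρ Δ) V | IsSimpleModule (Al ρ Δ) m}) =
      sSup {m : Submodule (Al ρ Δ) V | IsSimpleModule (Al ρ Δ) m} := by
    intro g
    rw [← actI_apply, OrderIso.map_sSup]
    apply le_antisymm
    · refine iSup₂_le fun U hU => le_sSup ?_
      exact isSimple_act hn g hU
    · refine sSup_le fun U hU => ?_
      have h1 : actI hn g (act hn g⁻¹ U) = U := by
        rw [actI_apply, ← act_mul, mul_inv_cancel, act_one]
      rw [← h1]
      exact le_iSup₂_of_le (act hn g⁻¹ U) (isSimple_act hn g⁻¹ hU) le_rfl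
  rcases bot_or_top hn hirr hU with h | h
  · exfalso
    obtain ⟨S, hS⟩ := IsAtomic.exists_atom (Submodule (Al ρ Δ) V)
    have h1 : S ≤ sSup {m : Submodule (Al ρ Δ) V | IsSimpleModule (Al ρ Δ) m} :=
      le_sSup (isSimpleModule_iff_isAtom.2 hS)
    rw [h, le_bot_iff] at h1
    exact hS.1 h1
  · exact h

omit [FiniteDimensional k V] in
lemma fully_act (hn : Δ.Normal) (g : Γ) {U : Submodule (Al ρ Δ) V} (hU : U.IsFullyInvariant) :
    (act hn g U).IsFullyInvariant := by
  intro f v hv
  rw [mem_act] at hv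
  rw [Submodule.mem_comap, mem_act]
  let f' : Module.End (Al ρ Δ) V :=
    { toFun := fun x => ρ g⁻¹ (f (ρ g x))
      map_add' := fun x y => by rw [map_add, map_add, map_add]
      map_smul' := fun a x => by
        have h1 : ρ g (a • x) = (⟨_, conj_mem hn g a.2⟩ : Al ρ Δ) • ρ g x := by
          change ρ g (a.1 x) = (ρ g * a.1 * ρ g⁻¹) (ρ g x)
          rw [Module.End.mul_apply, Module.End.mul_apply, rho_inv_apply]
        rw [h1, map_smul]
        change ρ g⁻¹ ((ρ g * a.1 * ρ g⁻¹) (f (ρ g x))) = a.1 (ρ g⁻¹ (f (ρ g x)))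
        rw [Module.End.mul_apply, Module.End.mul_apply, rho_inv_apply] }
  have h2 := hU f' hv
  change ρ g⁻¹ (f (ρ g (ρ g⁻¹ v))) ∈ U at h2
  rwa [rho_inv_apply'] at h2

omit [FiniteDimensional k V] in
lemma mem_comps_iff [IsSemisimpleModule (Al ρ Δ) V] {E : Submodule (Al ρ Δ) V} :
    E ∈ isotypicComponents (Al ρ Δ) V ↔ E.IsFullyInvariant ∧ E ≠ ⊥ ∧
      ∀ N : Submodule (Al ρ Δ) V, N.IsFullyInvariant → N ≤ E → N ≠ ⊥ → N = E := by
  constructor
  · intro hE
    refine ⟨.of_mem_isotypicComponents hE, (bot_lt_isotypicComponents hE).ne', fun N hN hNE hN0 => ?_⟩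
    obtain ⟨S, hS, hSs⟩ := (IsSemisimpleModule.eq_bot_or_exists_simple_le N).resolve_left hN0
    have h1 := eq_isotypicComponent_of_le hE (hS.trans hNE)
    refine le_antisymm hNE ?_
    rw [h1]
    exact isFullyInvariant_iff_le_imp_isotypicComponent_le.1 hN S hS
  · rintro ⟨h1, h2, h3⟩
    obtain ⟨S, hS, hSs⟩ := (IsSemisimpleModule.eq_bot_or_exists_simple_le E).resolve_left h2
    refine ⟨S, hSs, (h3 _ (.isotypicComponent _ _ S) ?_ ?_).symm⟩
    · exact isFullyInvariant_iff_le_imp_isotypicComponent_le.1 h1 S hS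
    · exact (bot_lt_isotypicComponent S).ne'

omit [FiniteDimensional k V] in
lemma act_comps [IsSemisimpleModule (Al ρ Δ) V] (hn : Δ.Normal) (g : Γ)
    {E : Submodule (Al ρ Δ) V} (hE : E ∈ isotypicComponents (Al ρ Δ) V) :
    act hn g E ∈ isotypicComponents (Al ρ Δ) V := by
  rw [mem_comps_iff] at hE ⊢
  obtain ⟨h1, h2, h3⟩ := hE
  refine ⟨fully_act hn g h1, fun h0 => h2 ?_, fun N hN hNE hN0 => ?_⟩
  · rw [← actI_apply] at h0
    have h4 := congrArg (actI hn g).symm h0
    rwa [OrderIso.symm_apply_apply, OrderIso.map_bot] at h4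
  · have h4 : act hn g⁻¹ N = E := by
      refine h3 _ (fully_act hn g⁻¹ hN) ?_ fun h0 => hN0 ?_
      · have h5 : act hn g⁻¹ (act hn g E) = E := by
          rw [← act_mul, inv_mul_cancel, act_one]
        rw [← h5]
        exact (actI hn g⁻¹).le_iff_le.2 hNE
      · rw [← actI_apply] at h0
        have h4 := congrArg (actI hn g⁻¹).symm h0
        rwa [OrderIso.symm_apply_apply, OrderIso.map_bot] at h4
    rw [← h4, ← act_mul, mul_inv_cancel, act_one]

/-- The number of isotypic components. -/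
lemma card_comps [IsSemisimpleModule (Al ρ Δ) V] (s : Finset (isotypicComponents (Al ρ Δ) V)) :
    s.card ≤ finrank k (ofSub (s.sup fun E => E.1)) := by
  classical
  induction s using Finset.induction_on with
  | empty => simp
  | insert a s ha ih =>
    rw [Finset.card_insert_of_notMem ha, Finset.sup_insert]
    have h1 : Disjoint a.1 (s.sup fun E => E.1) := by
      refine (sSupIndep_isotypicComponents (Al ρ Δ) V a.2).mono_right ?_
      refine Finset.sup_le fun E hE => le_sSup ⟨E.2, fun h0 => ha ?_⟩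
      have h2 : E = a := Subtype.ext h0
      rwa [← h2]
    have h2 : ofSub (s.sup fun E => E.1) < ofSub (a.1 ⊔ s.sup fun E => E.1) := by
      refine lt_of_le_of_ne (fun v hv => ?_) fun h0 => ?_
      · exact (le_sup_right : _ ≤ a.1 ⊔ s.sup fun E => E.1) hv
      · have h3 : a.1 ≤ s.sup fun E => E.1 := by
          intro v hv
          have h4 : v ∈ ofSub (a.1 ⊔ s.sup fun E => E.1) :=
            (le_sup_left : a.1 ≤ a.1 ⊔ s.sup fun E => E.1) hv
          rw [← h0] at h4
          exact h4
        exact (bot_lt_isotypicComponents a.2).ne' (disjoint_self.1 (h1.mono_right h3))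
    have h3 := Submodule.finrank_lt_finrank_of_lt h2
    omega

instance comps_finite : Finite (isotypicComponents (Al ρ Δ) V) := by
  have h : IsNoetherian (Al ρ Δ) V := isNoetherian_of_tower k inferInstance
  infer_instance

lemma card_comps_le [IsSemisimpleModule (Al ρ Δ) V] :
    Nat.card (isotypicComponents (Al ρ Δ) V) ≤ finrank k V := by
  classical
  have h := Fintype.ofFinite (isotypicComponents (Al ρ Δ) V)
  rw [Nat.card_eq_fintype_card]
  exact (card_comps Finset.univ).trans (Submodule.finrank_le _)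

/-- An element with a power which fixes all isotypic components. -/
theorem fix_of_pow [IsSemisimpleModule (Al ρ Δ) V] (hn : Δ.Normal) {σ : Γ} {m : ℕ}
    (hm : m.Coprime (finrank k V).factorial)
    (h : ∀ E ∈ isotypicComponents (Al ρ Δ) V, act hn (σ ^ m) E = E) :
    ∀ E ∈ isotypicComponents (Al ρ Δ) V, act hn σ E = E := by
  classical
  have hf := Fintype.ofFinite (isotypicComponents (Al ρ Δ) V)
  intro E hE
  let f : isotypicComponents (Al ρ Δ) V → isotypicComponents (Al ρ Δ) V := fun E =>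
    ⟨act hn σ E.1, act_comps hn σ E.2⟩
  have hf1 : ∀ (l : ℕ) E, (f^[l] E).1 = act hn (σ ^ l) E.1 := by
    intro l
    induction l with
    | zero => intro E; rw [pow_zero, act_one]; rfl
    | succ l ih => intro E; rw [Function.iterate_succ_apply, ih, pow_succ, act_mul]
  have h1 : Function.IsPeriodicPt f m ⟨E, hE⟩ := by
    change f^[m] ⟨E, hE⟩ = ⟨E, hE⟩
    apply Subtype.ext
    rw [hf1]
    exact h E hE
  have h2 := h1.minimalPeriod_dvd
  have h3 : Function.minimalPeriod f ⟨E, hE⟩ ≤ finrank k V := by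
    refine (Function.minimalPeriod_le_card (f := f)).trans ?_
    rw [← Nat.card_eq_fintype_card]
    exact card_comps_le
  have hm0 : 0 < m ∨ m = 0 := by omega
  rcases hm0 with hm0 | hm0
  · have h4 : 0 < Function.minimalPeriod f ⟨E, hE⟩ := h1.minimalPeriod_pos hm0
    have h5 : Function.minimalPeriod f ⟨E, hE⟩ ∣ (finrank k V).factorial :=
      Nat.dvd_factorial h4 h3
    have h6 : Function.minimalPeriod f ⟨E, hE⟩ = 1 := Nat.eq_one_of_dvd_coprimes hm h2 h5
    have h7 := Function.minimalPeriod_eq_one_iff_isFixedPt.1 h6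
    exact congrArg Subtype.val h7
  · subst hm0
    rw [Nat.coprime_zero_left] at hm
    have h8 : Nat.card (isotypicComponents (Al ρ Δ) V) ≤ 1 := by
      refine card_comps_le.trans ?_
      have h9 : finrank k V ≤ (finrank k V).factorial := Nat.self_le_factorial _
      omega
    rw [Nat.card_eq_fintype_card, Fintype.card_le_one_iff] at h8
    exact congrArg Subtype.val (h8 ⟨_, act_comps hn σ hE⟩ ⟨E, hE⟩)

omit [FiniteDimensional k V] in
/-- If all isotypic components are fixed then there is only one. -/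
theorem isotypic_of [IsSemisimpleModule (Al ρ Δ) V] (hn : Δ.Normal) (hirr : IrrG ρ)
    (h : ∀ g, ∀ E ∈ isotypicComponents (Al ρ Δ) V, act hn g E = E) : IsIsotypic (Al ρ Δ) V := by
  rw [isIsotypic_iff_isFullyInvariant_imp_bot_or_top]
  intro N hN
  obtain ⟨s, hs, rfl⟩ := isFullyInvariant_iff_sSup_isotypicComponents.1 hN
  refine bot_or_top hn hirr fun g => ?_
  rw [← actI_apply, OrderIso.map_sSup]
  apply le_antisymm
  · refine iSup₂_le fun U hU => ?_
    rw [actI_apply, h g U (hs hU)]
    exact le_sSup hU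
  · refine sSup_le fun U hU => ?_
    refine le_iSup₂_of_le U hU ?_
    rw [actI_apply, h g U (hs hU)]

/-- the kernel of an element of the algebra on a power of a module -/
lemma finrank_ker_pi {A : Type} [Ring A] [Algebra k A] {W S : Type} [AddCommGroup W] [Module k W]
    [Module A W] [IsScalarTower k A W] [AddCommGroup S] [Module k S] [Module A S]
    [IsScalarTower k A S] [FiniteDimensional k S] {m : ℕ} (e : W ≃ₗ[A] (Fin m → S)) (a : A) :
    finrank k (LinearMap.ker (Algebra.lsmul k k W a)) =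
      m * finrank k (LinearMap.ker (Algebra.lsmul k k S a)) := by
  have h1 : ∀ w : W, a • w = 0 ↔ ∀ i, a • e w i = 0 := by
    intro w
    rw [← e.map_eq_zero_iff, map_smul, funext_iff]
    rfl
  let F : LinearMap.ker (Algebra.lsmul k k W a) ≃ₗ[k]
      (Fin m → LinearMap.ker (Algebra.lsmul k k S a)) :=
    { toFun := fun w i => ⟨e w.1 i, (h1 w.1).1 w.2 i⟩
      map_add' := fun w w' => by
        funext i
        apply Subtype.ext
        change e (w.1 + w'.1) i = e w.1 i + e w'.1 i
        rw [map_add]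
        rfl
      map_smul' := fun c w => by
        funext i
        apply Subtype.ext
        change e (c • w.1) i = c • e w.1 i
        have h2 : e (c • w.1) = c • e w.1 := by
          rw [← algebraMap_smul A c w.1, map_smul, algebraMap_smul]
        rw [h2]
        rfl
      invFun := fun x => ⟨e.symm fun i => (x i).1, by
        change a • e.symm (fun i => (x i).1) = 0
        rw [h1]
        intro i
        rw [LinearEquiv.apply_symm_apply]
        exact (x i).2⟩
      left_inv := fun w => by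
        apply Subtype.ext
        change e.symm (fun i => e w.1 i) = w.1
        exact e.symm_apply_apply w.1
      right_inv := fun x => by
        funext i
        apply Subtype.ext
        change e (e.symm fun i => (x i).1) i = (x i).1
        rw [LinearEquiv.apply_symm_apply] }
  rw [F.finrank_eq, Module.finrank_pi_fintype, Finset.sum_const, Finset.card_univ,
    Fintype.card_fin, smul_eq_mul]

/-- Coprime multiplicities of an element of the algebra. -/
theorem simple_of [Nontrivial V] [IsSemisimpleModule (Al ρ Δ) V]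
    (hiso : IsIsotypic (Al ρ Δ) V) {D : Module.End k V} (hD : D ∈ Al ρ Δ)
    {p q : ℕ} (hpq : p.Coprime q) (hp : finrank k (LinearMap.ker (D - 1)) = p)
    (hq : finrank k (LinearMap.ker D) = q) : IsSimpleModule (Al ρ Δ) V := by
  have hfin : Module.Finite (Al ρ Δ) V := Module.Finite.of_restrictScalars_finite k (Al ρ Δ) V
  obtain ⟨m, hm, S, hS, ⟨e⟩⟩ := hiso.linearEquiv_fun
  have hSf : FiniteDimensional k S :=
    Module.Finite.of_injective (S.subtype.restrictScalars k) S.subtype_injective
  have key : ∀ a : Al ρ Δ, m ∣ finrank k (LinearMap.ker (a : Module.End k V)) := by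
    intro a
    have h1 := finrank_ker_pi (k := k) (A := Al ρ Δ) (W := V) (S := S) e a
    have h2 : Algebra.lsmul k k V a = (a : Module.End k V) := by
      ext v
      rfl
    rw [h2] at h1
    exact ⟨_, h1⟩
  have h1 : m ∣ p := by
    have h4 : D - 1 ∈ Al ρ Δ := sub_mem hD (one_mem _)
    have h5 := key ⟨D - 1, h4⟩
    rwa [hp] at h5
  have h2 : m ∣ q := by
    have h5 := key ⟨D, hD⟩
    rwa [hq] at h5
  have h3 : m = 1 := Nat.eq_one_of_dvd_coprimes hpq h1 h2
  subst h3
  have e' : V ≃ₗ[Al ρ Δ] S := e.trans (LinearEquiv.funUnique (Fin 1) (Al ρ Δ) S)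
  exact IsSimpleModule.congr (R := Al ρ Δ) (M := V) (N := S) e'

omit [FiniteDimensional k V] in
lemma irr_of_simple [IsSimpleModule (Al ρ Δ) V] (W : Submodule k V)
    (hW : ∀ s ∈ Δ, ∀ x ∈ W, ρ s x ∈ W) : W = ⊥ ∨ W = ⊤ := by
  rcases eq_bot_or_eq_top (toSub W hW) with h | h
  · left
    rw [eq_bot_iff]
    intro v hv
    have h1 : v ∈ toSub W hW := hv
    rw [h] at h1
    exact h1
  · right
    rw [eq_top_iff]
    intro v _
    have h1 : v ∈ toSub W hW := by rw [h]; trivial
    exact h1

end

end Q43.TB
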