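import Pool.Agent.Q43.TB.Cliff
import Pool.Agent.Q43.FD.Blk

/-!
# The Hodge-Tate operator lies in the algebra generated by each subgroup of finite index
-/

set_option autoImplicit false

namespace Q43.TB

open MvPolynomial Matrix Pool.Agent.W528.ZC Pool.Agent.W544.PG Q43.HTM Q43.FD Module
open Pool.Agent.Y95.MT (GalT qm tot dg LS IG)

section
variable {ℓ : ℕ} [Fact ℓ.Prime] {n r : ℕ} {κ : Type} [Fintype κ] [DecidableEq κ] {Γ : Type}
  [Group Γ] {c : Fin n → Fin r} {β : Γ →* Matrix (Fin n) (Fin n) ℤ_[ℓ]}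
  {v : Γ →* Matrix κ κ ℚ_[ℓ]} {j : ℚ_[ℓ] →+* ℂ}

theorem D_mem (hbd : ∀ s, BD c (Rj β j s)) {Xo : Matrix κ κ ℂ} {Do : Matrix (Fin n) (Fin n) ℂ}
    (hXD : dg Xo Do ∈ LS (IG (tot v β) j)) {Δ : Subgroup Γ} (hΔ : Δ.FiniteIndex) (i : Fin r) :
    Matrix.toLin' (sm c i Do) ∈ Al (endRep (smRep (Rj β j) hbd i)) Δ := by
  by_contra hcon
  have hcon' : Matrix.toLin' (sm c i Do) ∉
      Subalgebra.toSubmodule (Al (endRep (smRep (Rj β j) hbd i)) Δ) := hcon
  obtain ⟨φ, hφ, hφW⟩ := Submodule.exists_le_ker_of_notMem hcon'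
  let ψ : Matrix {a // c a = i} {a // c a = i} ℂ →ₗ[ℂ] ℂ := φ.comp
    (Matrix.toLin' : Matrix {a // c a = i} {a // c a = i} ℂ ≃ₗ[ℂ] _).toLinearMap
  have hψ : ∀ M, ψ M = φ (Matrix.toLin' M) := fun _ => rfl
  have hlin : ∀ M, ψ M = ∑ a, ∑ b, ψ (Matrix.single a b 1) * M a b := by
    intro M
    conv_lhs => rw [Matrix.matrix_eq_sum_single M]
    rw [map_sum]
    refine Finset.sum_congr rfl fun a _ => ?_
    rw [map_sum]
    refine Finset.sum_congr rfl fun b _ => ?_
    have h : Matrix.single a b (M a b) = M a b • Matrix.single a b (1 : ℂ) := by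
      rw [Matrix.smul_single, smul_eq_mul, mul_one]
    rw [h, map_smul, smul_eq_mul, mul_comm]
  obtain ⟨f, hf⟩ : ∃ f : MvPolynomial ((κ ⊕ Fin n) × (κ ⊕ Fin n)) ℂ,
      f = ∑ a : {a // c a = i}, ∑ b : {a // c a = i},
        C (ψ (Matrix.single a b 1)) * X (Sum.inr a.1, Sum.inr b.1) := ⟨_, rfl⟩
  have hev : ∀ (g : Matrix κ κ ℂ) (M : Matrix (Fin n) (Fin n) ℂ),
      ev (fromBlocks g 0 0 M) f = ψ (sm c i M) := by
    intro g M
    rw [hf, hlin, map_sum]
    refine Finset.sum_congr rfl fun a _ => ?_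
    rw [map_sum]
    refine Finset.sum_congr rfl fun b _ => ?_
    rw [map_mul, Pool.Agent.W528.ZC.ev_X, Pool.Agent.W528.ZC.ev_C]
    rfl
  have h1 : f ∈ IG (tot v β) j := ⟨Δ, hΔ, fun s hs => by
    rw [tot_map, hev]
    exact LinearMap.mem_ker.1 (hφW (mem_Al hs))⟩
  have h2 := ev_D_IG hXD h1
  have h3 : ev 1 (D (dg Xo Do) f) = ψ (sm c i Do) := by
    rw [hf, hlin, map_sum, map_sum]
    refine Finset.sum_congr rfl fun a _ => ?_
    rw [map_sum, map_sum]
    refine Finset.sum_congr rfl fun b _ => ?_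
    rw [← smul_eq_C_mul, Derivation.map_smul, smul_eq_C_mul, map_mul, ev_D_X,
      Pool.Agent.W528.ZC.ev_C]
    rfl
  rw [h3] at h2
  exact hφ h2

end

/-- The multiplicities of the eigenvalues. -/
theorem dims {ι : Type} [Fintype ι] [DecidableEq ι] {D Q : Matrix ι ι ℂ} (hD : D * D * D = D)
    (hQ : Q.det ≠ 0) (hsk : Dᵀ * Q + Q * D = 0) {p q : ℕ} (hN : Fintype.card ι = 2 * p + q)
    (htr : (D * D).trace = 2 * (p : ℂ)) :
    finrank ℂ (LinearMap.ker (Matrix.toLin' D - 1)) = p ∧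
      finrank ℂ (LinearMap.ker (Matrix.toLin' D)) = q := by
  have hunit : IsUnit Q.det := isUnit_iff_ne_zero.2 hQ
  have htr0 : D.trace = 0 := by
    have h1 : Dᵀ = -(Q * D * Q⁻¹) := by
      have h2 : Dᵀ * Q = -(Q * D) := eq_neg_of_add_eq_zero_left hsk
      calc Dᵀ = Dᵀ * (Q * Q⁻¹) := by rw [Matrix.mul_nonsing_inv _ hunit, mul_one]
        _ = Dᵀ * Q * Q⁻¹ := (Matrix.mul_assoc _ _ _).symm
        _ = _ := by rw [h2, Matrix.neg_mul]
    have h3 : D.trace = -D.trace := by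
      conv_lhs => rw [← Matrix.trace_transpose, h1, Matrix.trace_neg, Matrix.trace_mul_comm,
        ← Matrix.mul_assoc, Matrix.nonsing_inv_mul _ hunit, one_mul]
    have h4 : (2 : ℂ) * D.trace = 0 := by linear_combination h3
    exact (mul_eq_zero.1 h4).resolve_left two_ne_zero
  have hDv : ∀ x, D *ᵥ (D *ᵥ (D *ᵥ x)) = D *ᵥ x := by
    intro x
    rw [Matrix.mulVec_mulVec, Matrix.mulVec_mulVec, hD]
  have hp : LinearMap.IsProj (LinearMap.ker (Matrix.toLin' D - 1))
      (Matrix.toLin' ((2⁻¹ : ℂ) • (D * D + D))) := by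
    constructor
    · intro x
      rw [LinearMap.mem_ker, LinearMap.sub_apply, Matrix.toLin'_apply, Matrix.toLin'_apply,
        Module.End.one_apply, Matrix.smul_mulVec, Matrix.mulVec_smul, Matrix.add_mulVec,
        Matrix.mulVec_add, ← Matrix.mulVec_mulVec, hDv, add_comm, sub_self]
    · intro x hx
      rw [LinearMap.mem_ker, LinearMap.sub_apply, Matrix.toLin'_apply, Module.End.one_apply,
        sub_eq_zero] at hx
      rw [Matrix.toLin'_apply, Matrix.smul_mulVec, Matrix.add_mulVec, ← Matrix.mulVec_mulVec, hx,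
        hx, ← two_smul ℂ x, smul_smul, inv_mul_cancel₀ two_ne_zero, one_smul]
  have hq : LinearMap.IsProj (LinearMap.ker (Matrix.toLin' D)) (Matrix.toLin' (1 - D * D)) := by
    constructor
    · intro x
      rw [LinearMap.mem_ker, Matrix.toLin'_apply, Matrix.toLin'_apply, Matrix.sub_mulVec,
        Matrix.one_mulVec, Matrix.mulVec_sub, ← Matrix.mulVec_mulVec, hDv, sub_self]
    · intro x hx
      rw [LinearMap.mem_ker, Matrix.toLin'_apply] at hx
      rw [Matrix.toLin'_apply, Matrix.sub_mulVec, Matrix.one_mulVec, ← Matrix.mulVec_mulVec, hx,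
        Matrix.mulVec_zero, sub_zero]
  have h1 := hp.trace
  have h2 := hq.trace
  rw [Matrix.trace_toLin'_eq, Matrix.trace_smul, Matrix.trace_add, htr, htr0, add_zero,
    smul_eq_mul, inv_mul_cancel_left₀ two_ne_zero] at h1
  rw [Matrix.trace_toLin'_eq, Matrix.trace_sub, Matrix.trace_one, htr, hN] at h2
  push_cast at h2
  rw [add_sub_cancel_left] at h2
  exact ⟨by exact_mod_cast h1.symm, by exact_mod_cast h2.symm⟩

end Q43.TB
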