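import Pool.Agent.Q43.TB.Cliff

/-!
# The permutation of the isotypic components
-/

set_option autoImplicit false

namespace Q43.TB

open Module

section
variable {k : Type} [Field k] {V : Type} [AddCommGroup V] [Module k V] {Γ : Type} [Group Γ]
  {ρ : Γ →* Module.End k V} {Δ : Subgroup Γ}

lemma ofSub_sup (U U' : Submodule (Al ρ Δ) V) : ofSub (U ⊔ U') = ofSub U ⊔ ofSub U' := by
  ext v
  rw [mem_ofSub, Submodule.mem_sup, Submodule.mem_sup]
  rfl

lemma ofSub_mono {U U' : Submodule (Al ρ Δ) V} (h : U ≤ U') : ofSub U ≤ ofSub U' := h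

/-- the linear equivalence -/
def eqv (ρ : Γ →* Module.End k V) (g : Γ) : V ≃ₗ[k] V :=
  { ρ g with
    invFun := ρ g⁻¹
    left_inv := rho_inv_apply g
    right_inv := rho_inv_apply' g }

lemma finrank_act (hn : Δ.Normal) (g : Γ) (U : Submodule (Al ρ Δ) V) :
    finrank k (ofSub (act hn g U)) = finrank k (ofSub U) := by
  have h : ofSub (act hn g U) = (ofSub U).map (eqv ρ g).toLinearMap := by
    ext v
    rw [mem_ofSub, mem_act]
    constructor
    · intro hv
      exact ⟨ρ g⁻¹ v, hv, rho_inv_apply' g v⟩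
    · rintro ⟨w, hw, rfl⟩
      change ρ g⁻¹ (ρ g w) ∈ U
      rw [rho_inv_apply]
      exact hw
  rw [h]
  exact LinearEquiv.finrank_map_eq (eqv ρ g) (ofSub U)

/-- the isotypic components are permuted transitively -/
lemma transitive (hn : Δ.Normal) (hirr : IrrG ρ) [IsSemisimpleModule (Al ρ Δ) V]
    {E E' : Submodule (Al ρ Δ) V} (hE : E ∈ isotypicComponents (Al ρ Δ) V)
    (hE' : E' ∈ isotypicComponents (Al ρ Δ) V) : ∃ g, act hn g E = E' := by
  by_contra hcon
  push Not at hcon
  have hU : ∀ g, act hn g (⨆ h, act hn h E) = ⨆ h, act hn h E := by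
    intro g
    rw [← actI_apply, OrderIso.map_iSup]
    apply le_antisymm
    · refine iSup_le fun h => ?_
      rw [actI_apply, ← act_mul]
      exact le_iSup (fun h => act hn h E) (g * h)
    · refine iSup_le fun h => ?_
      have h1 : act hn h E = actI hn g (act hn (g⁻¹ * h) E) := by
        rw [actI_apply, ← act_mul, mul_inv_cancel_left]
      rw [h1]
      exact le_iSup (fun h => actI hn g (act hn h E)) (g⁻¹ * h)
  have h1 : (⨆ h, act hn h E) ≤ sSup (isotypicComponents (Al ρ Δ) V \ {E'}) := by
    refine iSup_le fun h => le_sSup ⟨act_comps hn h hE, fun h0 => hcon h h0⟩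
  rcases bot_or_top hn hirr hU with h2 | h2
  · have h3 : act hn 1 E ≤ ⨆ h, act hn h E := le_iSup (fun h => act hn h E) 1
    rw [h2, act_one, le_bot_iff] at h3
    exact (bot_lt_isotypicComponents hE).ne' h3
  · rw [h2, top_le_iff] at h1
    have h3 := sSupIndep_isotypicComponents (Al ρ Δ) V hE'
    change Disjoint E' (sSup (isotypicComponents (Al ρ Δ) V \ {E'})) at h3
    rw [h1, disjoint_top] at h3
    exact (bot_lt_isotypicComponents hE').ne' h3

variable [FiniteDimensional k V]

/-- the dimension of a sum of isotypic components -/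
lemma finrank_sup {d : ℕ} (s : Finset (isotypicComponents (Al ρ Δ) V))
    (hd : ∀ E ∈ s, finrank k (ofSub E.1) = d) :
    finrank k (ofSub (s.sup fun E => E.1)) = s.card * d := by
  classical
  induction s using Finset.induction_on with
  | empty =>
    rw [Finset.sup_empty, Finset.card_empty, zero_mul]
    exact finrank_bot k V
  | insert a s ha ih =>
    rw [Finset.card_insert_of_notMem ha, Finset.sup_insert, ofSub_sup]
    have h1 : Disjoint a.1 (s.sup fun E => E.1) := by
      refine (sSupIndep_isotypicComponents (Al ρ Δ) V a.2).mono_right ?_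
      refine Finset.sup_le fun E hE => le_sSup ⟨E.2, fun h0 => ha ?_⟩
      have h2 : E = a := Subtype.ext h0
      rwa [← h2]
    have h2 : ofSub a.1 ⊓ ofSub (s.sup fun E => E.1) = ⊥ := by
      rw [eq_bot_iff]
      intro v hv
      have h3 : v ∈ a.1 ⊓ (s.sup fun E => E.1) := hv
      rw [h1.eq_bot] at h3
      exact h3
    have h3 := Submodule.finrank_sup_add_finrank_inf_eq (ofSub a.1) (ofSub (s.sup fun E => E.1))
    rw [h2, finrank_bot, add_zero, hd a (Finset.mem_insert_self a s),
      ih (fun E hE => hd E (Finset.mem_insert_of_mem hE))] at h3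
    rw [h3]
    ring

/-- the number of components times the dimension -/
lemma card_mul [IsSemisimpleModule (Al ρ Δ) V] {d : ℕ}
    (hd : ∀ E : isotypicComponents (Al ρ Δ) V, finrank k (ofSub E.1) = d) :
    Nat.card (isotypicComponents (Al ρ Δ) V) * d = finrank k V := by
  classical
  have h := Fintype.ofFinite (isotypicComponents (Al ρ Δ) V)
  have h1 := finrank_sup (Finset.univ : Finset (isotypicComponents (Al ρ Δ) V)) fun E _ => hd E
  rw [Nat.card_eq_fintype_card, ← Finset.card_univ, ← h1]
  have h2 : (Finset.univ.sup fun E : isotypicComponents (Al ρ Δ) V => E.1) = ⊤ := by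
    rw [eq_top_iff, ← sSup_isotypicComponents (Al ρ Δ) V]
    refine sSup_le fun E hE => ?_
    exact Finset.le_sup (f := fun E : isotypicComponents (Al ρ Δ) V => E.1)
      (Finset.mem_univ (⟨E, hE⟩ : isotypicComponents (Al ρ Δ) V))
  rw [h2]
  have h3 : ofSub (⊤ : Submodule (Al ρ Δ) V) = ⊤ := rfl
  rw [h3, finrank_top]

omit [FiniteDimensional k V] in
/-- intersections of sums of isotypic components -/
lemma sup_inter [DecidableEq (isotypicComponents (Al ρ Δ) V)]
    [Fintype (isotypicComponents (Al ρ Δ) V)] (s t : Finset (isotypicComponents (Al ρ Δ) V)) {v : V}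
    (hs : v ∈ s.sup fun E => E.1) (ht : v ∈ t.sup fun E => E.1) :
    v ∈ (s ∩ t).sup fun E => E.1 := by
  have hind : (Finset.univ : Finset (isotypicComponents (Al ρ Δ) V)).SupIndep fun E => E.1 :=
    iSupIndep_iff_supIndep_univ.1
      ((sSupIndep_iff _).1 (sSupIndep_isotypicComponents (Al ρ Δ) V))
  have h1 : (s.sup fun E => E.1) = ((s ∩ t).sup fun E => E.1) ⊔ ((s \ t).sup fun E => E.1) := by
    rw [← Finset.sup_union]
    congr 1
    ext E
    simp only [Finset.mem_union, Finset.mem_inter, Finset.mem_sdiff]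
    tauto
  have h2 : Disjoint ((s \ t).sup fun E => E.1) (t.sup fun E => E.1) :=
    hind.disjoint_sup_sup (Finset.subset_univ _) (Finset.subset_univ _) Finset.sdiff_disjoint
  have h3 : ((s ∩ t).sup fun E => E.1) ≤ t.sup fun E => E.1 :=
    Finset.sup_mono Finset.inter_subset_right
  have h4 : (s.sup fun E => E.1) ⊓ (t.sup fun E => E.1) = (s ∩ t).sup fun E => E.1 := by
    rw [h1, sup_inf_assoc_of_le _ h3, h2.eq_bot, sup_bot_eq]
  rw [← h4]
  exact ⟨hs, ht⟩

/-- the permutation of the components -/
def pm [IsSemisimpleModule (Al ρ Δ) V] (hn : Δ.Normal) (σ : Γ) :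
    isotypicComponents (Al ρ Δ) V → isotypicComponents (Al ρ Δ) V :=
  fun E => ⟨act hn σ E.1, act_comps hn σ E.2⟩

omit [FiniteDimensional k V] in
lemma pm_iterate [IsSemisimpleModule (Al ρ Δ) V] (hn : Δ.Normal) (σ : Γ) (l : ℕ)
    (E : isotypicComponents (Al ρ Δ) V) : ((pm hn σ)^[l] E).1 = act hn (σ ^ l) E.1 := by
  induction l generalizing E with
  | zero => rw [pow_zero, act_one]; rfl
  | succ l ih => rw [Function.iterate_succ_apply, ih, pow_succ, act_mul]; rfl

omit [FiniteDimensional k V] in
lemma pm_injective [IsSemisimpleModule (Al ρ Δ) V] (hn : Δ.Normal) (σ : Γ) :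
    Function.Injective (pm hn σ : isotypicComponents (Al ρ Δ) V → _) := by
  intro E E' h
  have h1 : act hn σ E.1 = act hn σ E'.1 := congrArg Subtype.val h
  have h2 : act hn σ⁻¹ (act hn σ E.1) = act hn σ⁻¹ (act hn σ E'.1) := by rw [h1]
  rw [← act_mul, ← act_mul, inv_mul_cancel, act_one, act_one] at h2
  exact Subtype.ext h2

omit [FiniteDimensional k V] in
lemma mem_pm_sup [IsSemisimpleModule (Al ρ Δ) V] [DecidableEq (isotypicComponents (Al ρ Δ) V)]
    (hn : Δ.Normal) (σ : Γ) (s : Finset (isotypicComponents (Al ρ Δ) V)) {v : V}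
    (hv : v ∈ s.sup fun E => E.1) : ρ σ v ∈ (s.image (pm hn σ)).sup fun E => E.1 := by
  have h1 : ((s.image (pm hn σ)).sup fun E => E.1) = act hn σ (s.sup fun E => E.1) := by
    rw [Finset.sup_image, ← actI_apply, map_finset_sup]
    rfl
  rw [h1, mem_act, rho_inv_apply]
  exact hv

/-- the bound for the rank of a non-trivial permutation -/
theorem rank_bound [IsSemisimpleModule (Al ρ Δ) V] (hn : Δ.Normal) (σ : Γ) {d : ℕ}
    (hd : ∀ E : isotypicComponents (Al ρ Δ) V, finrank k (ofSub E.1) = d)
    (E : isotypicComponents (Al ρ Δ) V) (z : k) :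
    (Function.minimalPeriod (pm hn σ) E - 1) * d ≤
      finrank k (LinearMap.range (ρ σ - z • (1 : Module.End k V))) := by
  classical
  have hf := Fintype.ofFinite (isotypicComponents (Al ρ Δ) V)
  obtain ⟨L, hL⟩ : ∃ L, L = Function.minimalPeriod (pm hn σ) E := ⟨_, rfl⟩
  rw [← hL]
  have hLpos : 0 < L := by
    rw [hL]
    exact Function.minimalPeriod_pos_of_mem_periodicPts
      ((pm_injective hn σ).mem_periodicPts E)
  obtain ⟨C, hC⟩ : ∃ C, C = (Finset.Ico 1 L).image fun l => (pm hn σ)^[l] E := ⟨_, rfl⟩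
  have hCcard : C.card = L - 1 := by
    rw [hC, Finset.card_image_of_injOn, Nat.card_Ico]
    intro a ha b hb hab
    rw [Finset.coe_Ico, Set.mem_Ico] at ha hb
    exact Function.iterate_injOn_Iio_minimalPeriod (f := pm hn σ) (x := E)
      (by rw [← hL]; exact ha.2) (by rw [← hL]; exact hb.2) hab
  have hEC : E ∉ C := by
    rw [hC, Finset.mem_image]
    rintro ⟨l, hl, hlE⟩
    rw [Finset.mem_Ico] at hl
    have h1 := Function.IsPeriodicPt.minimalPeriod_le (by omega : 0 < l) hlE
    omega
  have hdim : finrank k (ofSub (C.sup fun E => E.1)) = (L - 1) * d := by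
    rw [finrank_sup C fun E _ => hd E, hCcard]
  -- eigenvectors
  have hker : ∀ (m : ℕ) (S : Finset (isotypicComponents (Al ρ Δ) V)), S.card ≤ m → S ⊆ C →
      ∀ u : V, ρ σ u = z • u → u ∈ (S.sup fun E => E.1) → u = 0 := by
    intro m
    induction m with
    | zero =>
      intro S hS _ u _ hu
      rw [Nat.le_zero, Finset.card_eq_zero] at hS
      rw [hS, Finset.sup_empty, Submodule.mem_bot] at hu
      exact hu
    | succ m ih =>
      intro S hS hSC u hu huS
      by_cases hu0 : u = 0
      · exact hu0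
      have hz : z ≠ 0 := by
        rintro rfl
        rw [zero_smul] at hu
        apply hu0
        rw [← rho_inv_apply (ρ := ρ) σ u, hu, map_zero]
      have h1 : u ∈ (S.image (pm hn σ)).sup fun E => E.1 := by
        have h2 := mem_pm_sup hn σ S huS
        rw [hu] at h2
        have h3 := (ofSub ((S.image (pm hn σ)).sup fun E => E.1)).smul_mem z⁻¹ h2
        rwa [smul_smul, inv_mul_cancel₀ hz, one_smul] at h3
      have h2 := sup_inter S (S.image (pm hn σ)) huS h1
      by_cases h3 : S ∩ S.image (pm hn σ) = S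
      · -- `S` is stable
        have h4 : S.image (pm hn σ) = S := by
          symm
          refine Finset.eq_of_subset_of_card_le (Finset.inter_eq_left.1 h3) ?_
          exact Finset.card_image_le
        have h5 : ∀ l, ∀ E' ∈ S, (pm hn σ)^[l] E' ∈ S := by
          intro l
          induction l with
          | zero => intro E' hE'; exact hE'
          | succ l ih =>
            intro E' hE'
            rw [Function.iterate_succ_apply]
            refine ih _ ?_
            rw [← h4]
            exact Finset.mem_image_of_mem _ hE'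
        rcases S.eq_empty_or_nonempty with h6 | ⟨E', hE'⟩
        · rw [h6, Finset.sup_empty, Submodule.mem_bot] at huS
          exact huS
        · exfalso
          have h7 := hSC hE'
          rw [hC, Finset.mem_image] at h7
          obtain ⟨l, hl, rfl⟩ := h7
          rw [Finset.mem_Ico] at hl
          have h8 := h5 (L - l) _ hE'
          rw [← Function.iterate_add_apply, Nat.sub_add_cancel hl.2.le] at h8
          have h9 : (pm hn σ)^[L] E = E := by
            rw [hL]
            exact Function.isPeriodicPt_minimalPeriod (pm hn σ) E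
          rw [h9] at h8
          exact hEC (hSC h8)
      · refine ih _ ?_ (Finset.inter_subset_left.trans hSC) u hu h2
        have h4 : (S ∩ S.image (pm hn σ)).card < S.card :=
          Finset.card_lt_card (Finset.ssubset_iff_subset_ne.2 ⟨Finset.inter_subset_left, h3⟩)
        omega
  have hdisj : ofSub (C.sup fun E => E.1) ⊓ LinearMap.ker (ρ σ - z • (1 : Module.End k V)) = ⊥ := by
    rw [eq_bot_iff]
    rintro u ⟨hu, hu'⟩
    rw [SetLike.mem_coe, LinearMap.mem_ker, LinearMap.sub_apply, LinearMap.smul_apply,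
      Module.End.one_apply, sub_eq_zero] at hu'
    exact hker C.card C le_rfl (Finset.Subset.refl _) u hu' hu
  have h1 := Submodule.finrank_sup_add_finrank_inf_eq (ofSub (C.sup fun E => E.1))
    (LinearMap.ker (ρ σ - z • (1 : Module.End k V)))
  rw [hdisj, finrank_bot, add_zero, hdim] at h1
  have h2 := LinearMap.finrank_range_add_finrank_ker (ρ σ - z • (1 : Module.End k V))
  have h3 := Submodule.finrank_le (ofSub (C.sup fun E => E.1) ⊔
    LinearMap.ker (ρ σ - z • (1 : Module.End k V)))
  omega

/-- If the isotypic components are lines then the image is commutative. -/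
lemma comm_of_lines [IsSemisimpleModule (Al ρ Δ) V]
    (hd : ∀ E : isotypicComponents (Al ρ Δ) V, finrank k (ofSub E.1) = 1) {s t : Γ}
    (hs : s ∈ Δ) (ht : t ∈ Δ) : ρ s * ρ t = ρ t * ρ s := by
  classical
  have hf := Fintype.ofFinite (isotypicComponents (Al ρ Δ) V)
  have hE : ∀ E : isotypicComponents (Al ρ Δ) V,
      ofSub E.1 ≤ LinearMap.ker (ρ s * ρ t - ρ t * ρ s) := by
    intro E v hv
    rw [LinearMap.mem_ker, LinearMap.sub_apply, Module.End.mul_apply, Module.End.mul_apply,
      sub_eq_zero]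
    by_cases hv0 : v = 0
    · rw [hv0, map_zero, map_zero, map_zero]
    have h1 : ∀ w ∈ ofSub E.1, ∃ a : k, a • v = w := by
      intro w hw
      obtain ⟨a, ha⟩ := (finrank_eq_one_iff_of_nonzero' (⟨v, hv⟩ : ofSub E.1)
        (fun h0 => hv0 (congrArg Subtype.val h0))).1 (hd E) ⟨w, hw⟩
      exact ⟨a, congrArg Subtype.val ha⟩
    obtain ⟨a, ha⟩ := h1 _ (ofSub_stable hs hv)
    obtain ⟨b, hb⟩ := h1 _ (ofSub_stable ht hv)
    rw [← hb, ← ha, map_smul, map_smul, ← hb, ← ha, smul_comm]
  have hsup : ∀ S : Finset (isotypicComponents (Al ρ Δ) V),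
      ofSub (S.sup fun E => E.1) ≤ LinearMap.ker (ρ s * ρ t - ρ t * ρ s) := by
    intro S
    induction S using Finset.induction_on with
    | empty =>
      intro v hv
      rw [Finset.sup_empty, mem_ofSub, Submodule.mem_bot] at hv
      rw [hv]
      exact Submodule.zero_mem _
    | insert a S _ ih =>
      rw [Finset.sup_insert, ofSub_sup]
      exact sup_le (hE a) ih
  have h2 : (Finset.univ.sup fun E : isotypicComponents (Al ρ Δ) V => E.1) = ⊤ := by
    rw [eq_top_iff, ← sSup_isotypicComponents (Al ρ Δ) V]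
    refine sSup_le fun E hE => ?_
    exact Finset.le_sup (f := fun E : isotypicComponents (Al ρ Δ) V => E.1)
      (Finset.mem_univ (⟨E, hE⟩ : isotypicComponents (Al ρ Δ) V))
  ext v
  have h3 := hsup Finset.univ (by rw [h2]; trivial : v ∈ ofSub _)
  rw [LinearMap.mem_ker, LinearMap.sub_apply, sub_eq_zero] at h3
  exact h3

/-- An element which fixes all isotypic components. -/
theorem fix_elem [IsSemisimpleModule (Al ρ Δ) V] (hn : Δ.Normal) (hirr : IrrG ρ) {σ : Γ} {m : ℕ}
    {PA : Prop} (hPA : (∀ s ∈ Δ, ∀ t ∈ Δ, ρ s * ρ t = ρ t * ρ s) → PA)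
    (h : ∀ L d : ℕ, 2 ≤ L → L ∣ m → d ∣ finrank k V → L * d ≤ finrank k V → (d = 1 → PA) →
      ∃ z : k, finrank k (LinearMap.range (ρ σ - z • (1 : Module.End k V))) < (L - 1) * d)
    (hm : ∀ E ∈ isotypicComponents (Al ρ Δ) V, act hn (σ ^ m) E = E) :
    ∀ E ∈ isotypicComponents (Al ρ Δ) V, act hn σ E = E := by
  classical
  have hf := Fintype.ofFinite (isotypicComponents (Al ρ Δ) V)
  intro E hE
  have hd : ∀ E' : isotypicComponents (Al ρ Δ) V, finrank k (ofSub E'.1) = finrank k (ofSub E) := by
    intro E'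
    obtain ⟨g, hg⟩ := transitive hn hirr hE E'.2
    rw [← hg, finrank_act]
  have hLm : Function.minimalPeriod (pm hn σ) ⟨E, hE⟩ ∣ m := by
    refine Function.IsPeriodicPt.minimalPeriod_dvd ?_
    change (pm hn σ)^[m] ⟨E, hE⟩ = ⟨E, hE⟩
    apply Subtype.ext
    rw [pm_iterate]
    exact hm E hE
  have hcard := card_mul hd
  have hLpos : 0 < Function.minimalPeriod (pm hn σ) (⟨E, hE⟩ : isotypicComponents (Al ρ Δ) V) :=
    Function.minimalPeriod_pos_of_mem_periodicPts ((pm_injective hn σ).mem_periodicPts _)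
  have hLle : Function.minimalPeriod (pm hn σ) (⟨E, hE⟩ : isotypicComponents (Al ρ Δ) V) ≤
      Nat.card (isotypicComponents (Al ρ Δ) V) := by
    rw [Nat.card_eq_fintype_card]
    exact Function.minimalPeriod_le_card
  by_cases hL : Function.minimalPeriod (pm hn σ) (⟨E, hE⟩ : isotypicComponents (Al ρ Δ) V) = 1
  · exact congrArg Subtype.val (Function.minimalPeriod_eq_one_iff_isFixedPt.1 hL)
  · exfalso
    obtain ⟨z, hz⟩ := h (Function.minimalPeriod (pm hn σ) ⟨E, hE⟩) (finrank k (ofSub E)) (by omega)
      hLm ⟨_, by rw [← hcard, mul_comm]⟩ (by rw [← hcard]; exact Nat.mul_le_mul_right _ hLle)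
      (fun h1 => hPA fun s hs t ht => comm_of_lines (fun E' => by rw [hd, h1]) hs ht)
    have h2 := rank_bound hn σ hd ⟨E, hE⟩ z
    omega

end

end Q43.TB
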