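import Pool.Agent.Q43.FD.Blk

/-!
# Normal subgroups which are dense modulo all powers of a prime
-/

set_option autoImplicit false

namespace Q43.TB

open Pool.Agent.Y95.MT (qm)

section
variable {ℓ : ℕ} [Fact ℓ.Prime] {n : ℕ} {Γ : Type} [Group Γ]

/-- the principal congruence subgroup -/
noncomputable def Cg (β : Γ →* Matrix (Fin n) (Fin n) ℤ_[ℓ]) (m : ℕ) : Subgroup Γ :=
  ((PadicInt.toZModPow (p := ℓ) m).mapMatrix.toMonoidHom.comp β).ker

variable {β : Γ →* Matrix (Fin n) (Fin n) ℤ_[ℓ]}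

lemma mem_Cg {m : ℕ} {g : Γ} : g ∈ Cg β m ↔ (β g).map (PadicInt.toZModPow m) = 1 := Iff.rfl

lemma map_eq_iff {m : ℕ} {A B : Matrix (Fin n) (Fin n) ℤ_[ℓ]} :
    A.map (PadicInt.toZModPow m) = B.map (PadicInt.toZModPow m) ↔
      ∀ a b, ‖A a b - B a b‖ ≤ (ℓ : ℝ) ^ (-(m : ℤ)) := by
  constructor
  · intro h a b
    rw [PadicInt.norm_le_pow_iff_mem_span_pow, ← PadicInt.ker_toZModPow, RingHom.mem_ker, map_sub,
      sub_eq_zero]
    exact congrFun (congrFun h a) b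
  · intro h
    ext a b
    have h1 := h a b
    rw [PadicInt.norm_le_pow_iff_mem_span_pow, ← PadicInt.ker_toZModPow, RingHom.mem_ker, map_sub,
      sub_eq_zero] at h1
    exact h1

variable [TopologicalSpace Γ] [IsTopologicalGroup Γ]

lemma isOpen_Cg (hβ : Continuous β) (m : ℕ) : IsOpen (Cg β m : Set Γ) := by
  have h1 : IsOpen {g : Γ | ∀ a b, ‖β g a b - (1 : Matrix (Fin n) (Fin n) ℤ_[ℓ]) a b‖ <
      (ℓ : ℝ) ^ (-(m : ℤ))} := by
    have h2 : {g : Γ | ∀ a b, ‖β g a b - (1 : Matrix (Fin n) (Fin n) ℤ_[ℓ]) a b‖ <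
        (ℓ : ℝ) ^ (-(m : ℤ))} = ⋂ a, ⋂ b, {g : Γ |
          ‖β g a b - (1 : Matrix (Fin n) (Fin n) ℤ_[ℓ]) a b‖ < (ℓ : ℝ) ^ (-(m : ℤ))} := by
      ext g
      simp only [Set.mem_iInter]
      rfl
    rw [h2]
    refine isOpen_iInter_of_finite fun a => isOpen_iInter_of_finite fun b => ?_
    exact isOpen_lt ((hβ.matrix_elem a b).sub continuous_const).norm continuous_const
  have hpos : (0 : ℝ) < (ℓ : ℝ) ^ (-(m : ℤ)) := by
    have : (0 : ℝ) < ℓ := by exact_mod_cast (Fact.out : ℓ.Prime).pos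
    positivity
  refine Subgroup.isOpen_of_mem_nhds _ (g := 1) ?_
  refine Filter.mem_of_superset (h1.mem_nhds ?_) fun g hg => ?_
  · intro a b
    rw [map_one, sub_self, norm_zero]
    exact hpos
  · change g ∈ Cg β m
    rw [mem_Cg]
    have h3 : (1 : Matrix (Fin n) (Fin n) ℤ_[ℓ]).map (PadicInt.toZModPow m) = 1 :=
      Matrix.map_one _ (map_zero _) (map_one _)
    rw [← h3, map_eq_iff]
    exact fun a b => (hg a b).le

/-- `Γ` is the only open normal subgroup which contains all elements with a property. -/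
def Gen (Γ : Type) [Group Γ] [TopologicalSpace Γ] (Adm : Γ → Prop) : Prop :=
  ∀ H : Subgroup Γ, H.Normal → IsOpen (H : Set Γ) → (∀ σ, Adm σ → σ ∈ H) → H = ⊤

/-- Linear relations which hold on a normal subgroup with all elements with the property. -/
theorem closure_principle (hβ : Continuous β) {Adm : Γ → Prop} (hgen : Gen Γ Adm)
    {H : Subgroup Γ} (hn : H.Normal) (hA : ∀ σ, Adm σ → σ ∈ H)
    (S : Submodule ℚ_[ℓ] (Matrix (Fin n) (Fin n) ℚ_[ℓ])) (hS : ∀ σ ∈ H, qm (β σ) ∈ S) :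
    ∀ σ, qm (β σ) ∈ S := by
  intro γ
  have hcl : IsClosed (S : Set (Matrix (Fin n) (Fin n) ℚ_[ℓ])) :=
    Submodule.closed_of_finiteDimensional S
  have hex : ∀ m : ℕ, ∃ h ∈ H, (β h).map (PadicInt.toZModPow m) =
      (β γ).map (PadicInt.toZModPow m) := by
    intro m
    have hnC : (Cg β m).Normal := MonoidHom.normal_ker _
    have h1 : H ⊔ Cg β m = ⊤ := by
      refine hgen _ (Subgroup.sup_normal _ _) ?_ fun σ hσ => ?_
      · exact Subgroup.isOpen_mono (le_sup_right : Cg β m ≤ H ⊔ Cg β m) (isOpen_Cg hβ m)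
      · exact (le_sup_left : H ≤ H ⊔ Cg β m) (hA σ hσ)
    have h2 : γ ∈ H ⊔ Cg β m := by rw [h1]; trivial
    rw [Subgroup.mem_sup_of_normal_right] at h2
    obtain ⟨h, hh, g, hg, rfl⟩ := h2
    refine ⟨h, hh, ?_⟩
    rw [mem_Cg] at hg
    rw [map_mul]
    have h3 : (β h * β g).map (PadicInt.toZModPow m) =
        (β h).map (PadicInt.toZModPow m) * (β g).map (PadicInt.toZModPow m) := Matrix.map_mul
    rw [h3, hg, mul_one]
  choose h hh hhγ using hex
  have hlim : Filter.Tendsto (fun m => qm (β (h m))) Filter.atTop (nhds (qm (β γ))) := by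
    refine tendsto_pi_nhds.2 fun a => tendsto_pi_nhds.2 fun b => ?_
    rw [tendsto_iff_norm_sub_tendsto_zero]
    have hlt : ((ℓ : ℝ)⁻¹) < 1 := by
      have : (1 : ℝ) < ℓ := by exact_mod_cast (Fact.out : ℓ.Prime).one_lt
      exact inv_lt_one_of_one_lt₀ this
    have h0 : (0 : ℝ) ≤ ((ℓ : ℝ)⁻¹) := by positivity
    refine squeeze_zero (fun m => norm_nonneg _) (fun m => ?_) (tendsto_pow_atTop_nhds_zero_of_lt_one h0 hlt)
    have h4 := (map_eq_iff.1 (hhγ m)) a b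
    have h5 : qm (β (h m)) a b - qm (β γ) a b = ((β (h m) a b - β γ a b : ℤ_[ℓ]) : ℚ_[ℓ]) := by
      rw [PadicInt.coe_sub]
      rfl
    rw [h5, ← PadicInt.norm_def]
    refine h4.trans (le_of_eq ?_)
    rw [zpow_neg, zpow_natCast, inv_pow]
  exact hcl.mem_of_tendsto hlim (Filter.Eventually.of_forall fun m => hS _ (hh m))

end

end Q43.TB
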