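import Pool.Agent.Q43.TB.Dop
import Pool.Agent.Q43.TB.Perm
import Pool.Agent.Q43.TB.Top

/-!
# Irreducibility for all subgroups of finite index from irreducibility
-/

set_option autoImplicit false

namespace Q43.TB

open Matrix Pool.Agent.W544.PG Q43.HTM Q43.FD Module
open Pool.Agent.Y95.MT (GalT qm tot dg LS IG)

section
variable {n r : ℕ} {c : Fin n → Fin r} {Γ : Type} [Group Γ] {R : Γ →* Matrix (Fin n) (Fin n) ℂ}

/-- the image of `J` is connected, for subspaces of the representation -/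
def Conn (c : Fin n → Fin r) (R : Γ →* Matrix (Fin n) (Fin n) ℂ) (i : Fin r) (J : Subgroup Γ) :
    Prop :=
  ∀ Δ : Subgroup Γ, Δ.FiniteIndex → ∀ W : Submodule ℂ (Fin n → ℂ),
    W ≤ Pool.Agent.Y95.MT.col c i → (∀ s ∈ J, s ∈ Δ → ∀ w ∈ W, R s *ᵥ w ∈ W) →
      ∀ s ∈ J, ∀ w ∈ W, R s *ᵥ w ∈ W

/-- some subgroup of finite index has a commutative image -/
def PotAb (c : Fin n → Fin r) (R : Γ →* Matrix (Fin n) (Fin n) ℂ) (i : Fin r) : Prop :=
  ∃ Δ : Subgroup Γ, Δ.FiniteIndex ∧ ∀ s ∈ Δ, ∀ t ∈ Δ,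
    sm c i (R s) * sm c i (R t) = sm c i (R t) * sm c i (R s)

/-- a power is in a connected subgroup, and the element is too close to a scalar to permute
subspaces -/
def Adm (c : Fin n → Fin r) (R : Γ →* Matrix (Fin n) (Fin n) ℂ) (i : Fin r) (N : ℕ) (σ : Γ) :
    Prop :=
  ∃ m : ℕ, (∃ J : Subgroup Γ, Conn c R i J ∧ σ ^ m ∈ J) ∧ ∀ L d : ℕ, 2 ≤ L → L ∣ m → d ∣ N →
    L * d ≤ N → (d = 1 → PotAb c R i) → ∃ z : ℂ, (sm c i (R σ) - z • 1).rank < (L - 1) * d

/-- irreducibility for the whole group -/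
def IrrB (c : Fin n → Fin r) (R : Γ →* Matrix (Fin n) (Fin n) ℂ) (i : Fin r) : Prop :=
  ∀ W : Submodule ℂ (Fin n → ℂ), W ≤ Pool.Agent.Y95.MT.col c i →
    (∀ s, ∀ w ∈ W, R s *ᵥ w ∈ W) → W = ⊥ ∨ W = Pool.Agent.Y95.MT.col c i

lemma ex_mem_col (i : Fin r) (y : {a // c a = i} → ℂ) :
    (ex c i y : Fin n → ℂ) ∈ Pool.Agent.Y95.MT.col c i := fun _ ha => ex_of_ne y ha

lemma exists_ex {i : Fin r} {w : Fin n → ℂ} (hw : w ∈ Pool.Agent.Y95.MT.col c i) :
    ∃ y : {a // c a = i} → ℂ, w = ex c i y := by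
  refine ⟨fun a => w a.1, ?_⟩
  funext a
  by_cases ha : c a = i
  · exact (ex_val (fun a : {a // c a = i} => w a.1) ⟨a, ha⟩).symm
  · rw [ex_of_ne _ ha]
    exact hw a ha

variable (hbd : ∀ s, BD c (R s))

lemma endRep_apply (i : Fin r) (s : Γ) (y : {a // c a = i} → ℂ) :
    endRep (smRep R hbd i) s y = sm c i (R s) *ᵥ y := rfl

lemma ex_endRep (i : Fin r) (s : Γ) (y : {a // c a = i} → ℂ) :
    (ex c i (endRep (smRep R hbd i) s y) : Fin n → ℂ) = R s *ᵥ ex c i y := by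
  rw [endRep_apply, mulVec_ex (hbd s)]

lemma irrG_of (i : Fin r) (h : IrrB c R i) : IrrG (endRep (smRep R hbd i)) := by
  intro W hW
  have hst : ∀ s, ∀ w ∈ W.map (ex c i : ({a // c a = i} → ℂ) →ₗ[ℂ] (Fin n → ℂ)),
      R s *ᵥ w ∈ W.map (ex c i : ({a // c a = i} → ℂ) →ₗ[ℂ] (Fin n → ℂ)) := by
    rintro s _ ⟨y, hy, rfl⟩
    refine ⟨endRep (smRep R hbd i) s y, hW s y hy, ?_⟩
    exact ex_endRep hbd i s y
  rcases h _ (by
    rintro _ ⟨y, _, rfl⟩
    exact ex_mem_col i y) hst with h1 | h1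
  · left
    rw [eq_bot_iff]
    intro y hy
    have h2 : (ex c i y : Fin n → ℂ) ∈ W.map (ex c i : ({a // c a = i} → ℂ) →ₗ[ℂ] (Fin n → ℂ)) :=
      ⟨y, hy, rfl⟩
    rw [h1, Submodule.mem_bot] at h2
    exact ex_inj (by rw [h2, map_zero])
  · right
    rw [eq_top_iff]
    intro y _
    have h2 := ex_mem_col (c := c) i y
    rw [← h1] at h2
    obtain ⟨z, hz, hzy⟩ := h2
    have h3 : z = y := ex_inj hzy
    rwa [h3] at hz

/-- admissible elements fix the isotypic components -/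
theorem adm_fix {i : Fin r} {Δ : Subgroup Γ} (hn : Δ.Normal) (hΔ : Δ.FiniteIndex)
    [IsSemisimpleModule (Al (endRep (smRep R hbd i)) Δ) ({a // c a = i} → ℂ)] {σ : Γ}
    (hirr : IrrG (endRep (smRep R hbd i))) (hσ : Adm c R i (Fintype.card {a // c a = i}) σ) :
    ∀ E ∈ isotypicComponents (Al (endRep (smRep R hbd i)) Δ) ({a // c a = i} → ℂ),
      act hn σ E = E := by
  obtain ⟨m, ⟨J, hJ, hmJ⟩, hm⟩ := hσ
  refine fix_elem hn hirr (m := m) (PA := PotAb c R i) ?_ ?_ fun E _ => ?_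
  · intro hab
    refine ⟨Δ, hΔ, fun s hs t ht => ?_⟩
    apply (Matrix.toLin' : Matrix {a // c a = i} {a // c a = i} ℂ ≃ₗ[ℂ] _).injective
    rw [Matrix.toLin'_mul, Matrix.toLin'_mul]
    exact hab s hs t ht
  · intro L d h2 hL hd hLd hd1
    rw [Module.finrank_fintype_fun_eq_card] at hd hLd
    obtain ⟨z, hz⟩ := hm L d h2 hL hd hLd hd1
    refine ⟨z, lt_of_le_of_lt (le_of_eq ?_) hz⟩
    unfold Matrix.rank
    have h3 : (sm c i (R σ) - z • 1).mulVecLin =
        endRep (smRep R hbd i) σ - z • (1 : Module.End ℂ ({a // c a = i} → ℂ)) := by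
      apply LinearMap.ext
      intro x
      rw [Matrix.mulVecLin_apply, Matrix.sub_mulVec, Matrix.smul_mulVec, Matrix.one_mulVec]
      rfl
    rw [h3]
  have key : ∀ s ∈ J, ∀ y ∈ E, endRep (smRep R hbd i) s y ∈ E := by
    intro s hs y hy
    have h1 := hJ Δ hΔ ((ofSub E).map (ex c i)) (by
      rintro _ ⟨y, _, rfl⟩
      exact ex_mem_col i y) (by
      rintro t ht htΔ _ ⟨y, hy, rfl⟩
      exact ⟨endRep (smRep R hbd i) t y, ofSub_stable htΔ hy, ex_endRep hbd i t y⟩) s hs (ex c i y)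
      ⟨y, hy, rfl⟩
    obtain ⟨z, hz, hzy⟩ := h1
    rw [← ex_endRep hbd i s y] at hzy
    have h2 := ex_inj hzy
    rw [← h2]
    exact hz
  ext v
  rw [mem_act]
  constructor
  · intro hv
    have h1 := key _ hmJ _ hv
    rwa [rho_inv_apply'] at h1
  · intro hv
    exact key _ (J.inv_mem hmJ) _ hv

lemma act_eq_iff {k V : Type} [Field k] [AddCommGroup V] [Module k V] {ρ : Γ →* Module.End k V}
    {Δ : Subgroup Γ} (hn : Δ.Normal) {E : Submodule (Al ρ Δ) V}
    (h : ∀ g, ∀ y ∈ E, ρ g y ∈ E) (g : Γ) : act hn g E = E := by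
  ext v
  rw [mem_act]
  constructor
  · intro hv
    have h1 := h g _ hv
    rwa [rho_inv_apply'] at h1
  · intro hv
    exact h _ _ hv

lemma sm_trace (i : Fin r) (A : Matrix (Fin n) (Fin n) ℂ) :
    (sm c i A).trace = ∑ a with c a = i, A a a := by
  change ∑ a : {a // c a = i}, A a.1 a.1 = _
  rw [Finset.sum_subtype (Finset.univ.filter fun a => c a = i) (p := fun a => c a = i)
    (fun a => by simp) (fun a => A a a)]

end

section
variable {ℓ : ℕ} [Fact ℓ.Prime] {n r : ℕ} {κ : Type} [Fintype κ] [DecidableEq κ] {Γ : Type}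
  [Group Γ] {c : Fin n → Fin r} {T : HS n} {β : Γ →* Matrix (Fin n) (Fin n) ℤ_[ℓ]}
  {v : Γ →* Matrix κ κ ℚ_[ℓ]} {j : ℚ_[ℓ] →+* ℂ}

/-- Irreducibility for all subgroups of finite index from irreducibility. -/
theorem irr_of_gen [TopologicalSpace Γ] [IsTopologicalGroup Γ] (hβc : Continuous β)
    (hg : GalT c T.Q β) (hQ : BD c T.Q) {i : Fin r} {p q : ℕ}
    (hgen : Gen Γ (Adm c (Rj β j) i (2 * p + q))) (hcard : Fintype.card {a // c a = i} = 2 * p + q) (hpos : 0 < p) (hpq : p.Coprime q)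
    {Xo : Matrix κ κ ℂ} {Do : Matrix (Fin n) (Fin n) ℂ} (hXD : dg Xo Do ∈ LS (IG (tot v β) j))
    (hD3 : Do * Do * Do = Do) (htr : ∑ a with c a = i, (Do * Do) a a = 2 * (p : ℂ))
    (hirr : IrrB c (Rj β j) i) : Irr c (Rj β j) i := by
  have hbd : ∀ s, BD c (Rj β j s) := fun s => hg.bdK j s
  have hne : Nonempty {a // c a = i} := Fintype.card_pos_iff.1 (by omega)
  have hnt : Nontrivial ({a // c a = i} → ℂ) := Function.nontrivial
  intro Δ' hΔ' W hWc hW
  obtain ⟨Δ, hΔd⟩ : ∃ Δ : Subgroup Γ, Δ = Δ'.normalCore := ⟨_, rfl⟩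
  have hn : Δ.Normal := by rw [hΔd]; infer_instance
  have hΔ : Δ.FiniteIndex := by rw [hΔd]; infer_instance
  have hΔle : Δ ≤ Δ' := by rw [hΔd]; exact Subgroup.normalCore_le _
  have hIG := irrG_of hbd i hirr
  have hss : IsSemisimpleModule (Al (endRep (smRep (Rj β j) hbd i)) Δ) ({a // c a = i} → ℂ) :=
    semisimple hn hIG
  -- the normal subgroup which fixes the components
  let H : Subgroup Γ :=
    { carrier := {g | ∀ E ∈ isotypicComponents (Al (endRep (smRep (Rj β j) hbd i)) Δ)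
        ({a // c a = i} → ℂ), act hn g E = E}
      one_mem' := fun E _ => act_one E
      mul_mem' := by
        intro a b ha hb E hE
        rw [act_mul, hb E hE, ha E hE]
      inv_mem' := by
        intro a ha E hE
        conv_lhs => rw [← ha E hE]
        rw [← act_mul, inv_mul_cancel, act_one] }
  have hHn : H.Normal := by
    constructor
    intro a ha g E hE
    rw [act_mul, act_mul, ha _ (act_comps hn g⁻¹ hE), ← act_mul, mul_inv_cancel, act_one]
  have hA : ∀ σ, Adm c (Rj β j) i (2 * p + q) σ → σ ∈ H := fun σ hσ =>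
    adm_fix hbd hn hΔ hIG (by rw [hcard]; exact hσ)
  let S : Submodule ℚ_[ℓ] (Matrix (Fin n) (Fin n) ℚ_[ℓ]) :=
    { carrier := {M | ∀ E ∈ isotypicComponents (Al (endRep (smRep (Rj β j) hbd i)) Δ)
        ({a // c a = i} → ℂ), ∀ y ∈ E, sm c i (M.map j) *ᵥ y ∈ E}
      zero_mem' := by
        intro E _ y _
        have h : sm c i ((0 : Matrix (Fin n) (Fin n) ℚ_[ℓ]).map j) = 0 := by
          ext a b
          exact map_zero j
        rw [h, Matrix.zero_mulVec]
        exact E.zero_mem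
      add_mem' := by
        intro M N hM hN E hE y hy
        have h : sm c i ((M + N).map j) = sm c i (M.map j) + sm c i (N.map j) := by
          ext a b
          exact map_add j _ _
        rw [h, Matrix.add_mulVec]
        exact E.add_mem (hM E hE y hy) (hN E hE y hy)
      smul_mem' := by
        intro z M hM E hE y hy
        have h : sm c i ((z • M).map j) = j z • sm c i (M.map j) := by
          ext a b
          exact map_mul j _ _
        rw [h, Matrix.smul_mulVec]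
        exact (ofSub E).smul_mem (j z) (hM E hE y hy) }
  have hall := closure_principle hβc hgen hHn hA S (fun σ hσ E hE y hy => by
    change endRep (smRep (Rj β j) hbd i) σ y ∈ E
    rw [← hσ E hE, mem_act, rho_inv_apply]
    exact hy)
  have hfix : ∀ g, ∀ E ∈ isotypicComponents (Al (endRep (smRep (Rj β j) hbd i)) Δ)
      ({a // c a = i} → ℂ), act hn g E = E := fun g E hE =>
    act_eq_iff hn (fun g y hy => hall g E hE y hy) g
  have hiso := isotypic_of hn hIG hfix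
  -- the Hodge-Tate operator
  obtain ⟨y0, Z0, e0, hDs, hDb, -⟩ := LS_shape hg hXD
  have e1 : Do = Z0 := by
    unfold dg at e0
    rw [Matrix.fromBlocks_inj] at e0
    exact e0.2.2.2
  subst e1
  have hQbd : BD c (mC T.Q) := by
    intro a b hab
    rw [mC, Matrix.map_apply, hQ a b hab, Rat.cast_zero]
  have hQdet : (mC T.Q).det ≠ 0 := by
    rw [det_mC]
    exact_mod_cast Pool.Agent.W74.PG.det_ne T
  have hsk : (sm c i Do)ᵀ * sm c i (mC T.Q) + sm c i (mC T.Q) * sm c i Do = 0 := by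
    have h1 : (sm c i Do)ᵀ = sm c i Doᵀ := rfl
    rw [h1, ← sm_mul hQbd, ← sm_mul hDb]
    have h2 : sm c i (Doᵀ * mC T.Q) + sm c i (mC T.Q * Do) =
        sm c i (Doᵀ * mC T.Q + mC T.Q * Do) := rfl
    rw [h2, hDs]
    rfl
  have hd := dims (D := sm c i Do) (Q := sm c i (mC T.Q)) (p := p) (q := q)
    (by rw [← sm_mul hDb, ← sm_mul hDb, hD3]) (sm_det hQbd hQdet) hsk hcard
    (by rw [← sm_mul hDb, sm_trace, htr])
  have hsimple := simple_of hiso (D_mem hbd hXD hΔ i) hpq hd.1 hd.2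
  let W' : Submodule ℂ ({a // c a = i} → ℂ) := W.comap (ex c i)
  have hW' : ∀ s ∈ Δ, ∀ w ∈ W', endRep (smRep (Rj β j) hbd i) s w ∈ W' := by
    intro s hs w hw
    change ex c i (endRep (smRep (Rj β j) hbd i) s w) ∈ W
    rw [ex_endRep]
    exact hW s (hΔle hs) _ hw
  rcases irr_of_simple W' hW' with h1 | h1
  · left
    rw [eq_bot_iff]
    intro w hw
    obtain ⟨y, rfl⟩ := exists_ex (hWc hw)
    have h2 : y ∈ W' := hw
    rw [h1, Submodule.mem_bot] at h2
    rw [h2, map_zero]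
    exact Submodule.zero_mem _
  · right
    refine le_antisymm hWc fun w hw => ?_
    obtain ⟨y, rfl⟩ := exists_ex hw
    have h2 : y ∈ W' := by rw [h1]; trivial
    exact h2

end

end Q43.TB
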