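import Pool.Agent.Q43.TB.Top
import Pool.Agent.W215.FM.Gen

/-!
# The absolute Galois group of the rational numbers
-/

set_option autoImplicit false

namespace Q43.TB

open Pool.Agent.W569.FM

/-- Minkowski's theorem -/
theorem gen_rat {Adm : GF ℚ → Prop} (h : ∀ P : Ideal (OO ℚ), P.IsMaximal → ∀ σ,
    InInertia P σ → Adm σ) : Gen (GF ℚ) Adm := by
  intro H hn hO hA
  have h1 := Pool.Agent.W215.FM.main (GF ℚ ⧸ H) (QuotientGroup.mk' H)
    (by rw [QuotientGroup.ker_mk']; exact hO)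
    (fun P hP τ hτ => (QuotientGroup.eq_one_iff τ).2 (hA _ (h P hP τ hτ)))
  rw [eq_top_iff]
  intro g _
  exact (QuotientGroup.eq_one_iff g).1 (h1 g)

end Q43.TB
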