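import Pool.Agent.Q43.TB.Fix

/-!
# Representations which are not isomorphic for any subgroup of finite index
-/

set_option autoImplicit false

namespace Q43.TB

open Matrix Pool.Agent.W544.PG Q43.HTM Q43.FD Module
open Pool.Agent.W637.PG (Ec Ec_comm Ec_sq)
open Pool.Agent.Y95.MT (GalT qm tot dg LS IG mC_eq)

section
variable {n r : ℕ} {c : Fin n → Fin r} {Γ : Type} [Group Γ] {R : Γ →* Matrix (Fin n) (Fin n) ℂ}

/-- not isomorphic up to twists by characters with the values `1` and `-1` -/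
def NonT (c : Fin n → Fin r) (R : Γ →* Matrix (Fin n) (Fin n) ℂ) (i k : Fin r) : Prop :=
  ∀ A : Matrix (Fin n) (Fin n) ℂ, (∀ a b, A a b ≠ 0 → c a = k ∧ c b = i) →
    (∀ s, A * R s = R s * A ∨ A * R s = -(R s * A)) → A = 0

/-- not isomorphic for all subgroups of finite index implies not isomorphic up to twists -/
theorem twist_of_noniso {i k : Fin r} (h : NonIso c R i k) : NonT c R i k := by
  classical
  intro A hA hs
  by_contra hne
  have hnb : ∀ s, A * R s = R s * A → A * R s = -(R s * A) → False := by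
    intro s h1 h2
    rw [h1] at h2
    have h3 : (2 : ℂ) • (R s * A) = 0 := by
      rw [two_smul]
      nth_rewrite 1 [h2]
      exact neg_add_cancel _
    have h4 := (smul_eq_zero.1 h3).resolve_left two_ne_zero
    apply hne
    calc A = R s⁻¹ * (R s * A) := by
          rw [← Matrix.mul_assoc, ← map_mul, inv_mul_cancel, map_one, one_mul]
      _ = 0 := by rw [h4, mul_zero]
  let f : Γ →* ℤˣ :=
    { toFun := fun s => if A * R s = R s * A then 1 else -1
      map_one' := by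
        rw [if_pos]
        rw [map_one, one_mul, mul_one]
      map_mul' := by
        intro s t
        have h1 : A * R (s * t) = A * R s * R t := by rw [map_mul, Matrix.mul_assoc]
        have h2 : R (s * t) * A = R s * (R t * A) := by rw [map_mul, Matrix.mul_assoc]
        by_cases hs' : A * R s = R s * A
        · by_cases ht' : A * R t = R t * A
          · rw [if_pos hs', if_pos ht', if_pos, one_mul]
            rw [h1, h2, hs', Matrix.mul_assoc, ht']
          · rw [if_pos hs', if_neg ht', if_neg, one_mul]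
            intro h3
            refine hnb (s * t) h3 ?_
            rw [h1, h2, hs', Matrix.mul_assoc, (hs t).resolve_left ht', Matrix.mul_neg]
        · by_cases ht' : A * R t = R t * A
          · rw [if_neg hs', if_pos ht', if_neg, mul_one]
            intro h3
            refine hnb (s * t) h3 ?_
            rw [h1, h2, (hs s).resolve_left hs', Matrix.neg_mul, Matrix.mul_assoc, ht']
          · rw [if_neg hs', if_neg ht', if_pos]
            · rfl
            · rw [h1, h2, (hs s).resolve_left hs', Matrix.neg_mul, Matrix.mul_assoc,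
                (hs t).resolve_left ht', Matrix.mul_neg, neg_neg] }
  refine hne (h f.ker inferInstance A hA fun s hs' => ?_)
  have h1 : (if A * R s = R s * A then (1 : ℤˣ) else -1) = 1 := hs'
  by_contra h2
  rw [if_neg h2] at h1
  exact absurd h1 (by decide)

lemma Ec_mulVec (i : Fin r) (w : Fin n → ℂ) (a : Fin n) :
    (Ec c i *ᵥ w) a = if c a = i then w a else 0 := by
  unfold Ec
  rw [Matrix.mulVec_diagonal]
  split_ifs <;> simp

lemma Ec_col {i : Fin r} {w : Fin n → ℂ} (hw : w ∈ Pool.Agent.Y95.MT.col c i) :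
    Ec c i *ᵥ w = w := by
  funext a
  rw [Ec_mulVec]
  split_ifs with h
  · rfl
  · exact (hw a h).symm

lemma Ec_mem (i : Fin r) (w : Fin n → ℂ) :
    Ec c i *ᵥ w ∈ Pool.Agent.Y95.MT.col c i := by
  intro a ha
  rw [Ec_mulVec, if_neg ha]

lemma col_iff {i : Fin r} {w : Fin n → ℂ} :
    w ∈ Pool.Agent.Y95.MT.col c i ↔ Ec c i *ᵥ w = w :=
  ⟨Ec_col, fun h => by rw [← h]; exact Ec_mem i w⟩

lemma Ec_T (i : Fin r) : (Ec c i)ᵀ = Ec c i := by
  unfold Ec
  rw [Matrix.diagonal_transpose]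

lemma Ec_ne {i k : Fin r} (h : i ≠ k) {w : Fin n → ℂ} (hw : w ∈ Pool.Agent.Y95.MT.col c k) :
    Ec c i *ᵥ w = 0 := by
  funext a
  rw [Ec_mulVec]
  split_ifs with h1
  · exact hw a (by rw [h1]; exact h)
  · rfl

lemma Ec_left {i k : Fin r} {A : Matrix (Fin n) (Fin n) ℂ}
    (hA : ∀ a b, A a b ≠ 0 → c a = k ∧ c b = i) : Ec c k * A = A := by
  ext a b
  unfold Ec
  rw [Matrix.diagonal_mul]
  by_cases h : A a b = 0
  · rw [h, mul_zero]
  · rw [if_pos (hA a b h).1, one_mul]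

lemma Ec_right {i k : Fin r} {A : Matrix (Fin n) (Fin n) ℂ}
    (hA : ∀ a b, A a b ≠ 0 → c a = k ∧ c b = i) : A * Ec c i = A := by
  ext a b
  unfold Ec
  rw [Matrix.mul_diagonal]
  by_cases h : A a b = 0
  · rw [h, zero_mul]
  · rw [if_pos (hA a b h).2, mul_one]

lemma mulVec_ext {A B : Matrix (Fin n) (Fin n) ℂ} (h : ∀ x, A *ᵥ x = B *ᵥ x) : A = B := by
  ext a b
  have h1 := congrFun (h (Pi.single b 1)) a
  rwa [Matrix.mulVec_single_one, Matrix.mulVec_single_one] at h1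

/-- Schur's lemma -/
theorem schur (hbd : ∀ s, BD c (R s)) {i : Fin r} {Δ : Subgroup Γ}
    (hi : ∀ W : Submodule ℂ (Fin n → ℂ), W ≤ Pool.Agent.Y95.MT.col c i →
      (∀ s ∈ Δ, ∀ w ∈ W, R s *ᵥ w ∈ W) → W = ⊥ ∨ W = Pool.Agent.Y95.MT.col c i)
    {M : Matrix (Fin n) (Fin n) ℂ} (h1 : Ec c i * M = M) (h2 : M * Ec c i = M)
    (hM : ∀ s ∈ Δ, M * R s = R s * M) : ∃ z : ℂ, M = z • Ec c i := by
  by_cases hne : Nonempty {a // c a = i}
  swap
  · refine ⟨0, ?_⟩
    rw [zero_smul, ← h2]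
    have h3 : Ec c i = 0 := by
      ext a b
      unfold Ec
      rw [Matrix.diagonal_apply, Matrix.zero_apply]
      split_ifs with h h'
      · exact absurd ⟨⟨a, h'⟩⟩ hne
      · rfl
      · rfl
    rw [h3, mul_zero]
  have hnt : Nontrivial ({a // c a = i} → ℂ) := Function.nontrivial
  obtain ⟨z, hz⟩ := Module.End.exists_eigenvalue (Matrix.toLin' (sm c i M))
  obtain ⟨y, hy⟩ := hz.exists_hasEigenvector
  have hy1 : sm c i M *ᵥ y = z • y := by
    have := hy.apply_eq_smul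
    rwa [Matrix.toLin'_apply] at this
  have hMbd : BD c M := by
    intro a b hab
    rw [← h1, ← h2]
    unfold Ec
    rw [Matrix.diagonal_mul, Matrix.mul_diagonal]
    by_cases ha : c a = i
    · rw [if_neg (fun hb : c b = i => hab (ha.trans hb.symm)), mul_zero, mul_zero]
    · rw [if_neg ha, zero_mul]
  let W : Submodule ℂ (Fin n → ℂ) :=
    Pool.Agent.Y95.MT.col c i ⊓ LinearMap.ker (Matrix.toLin' (M - z • 1))
  have hWm : ∀ w, w ∈ W ↔ w ∈ (Pool.Agent.Y95.MT.col c i : Submodule ℂ (Fin n → ℂ)) ∧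
      M *ᵥ w = z • w := by
    intro w
    rw [Submodule.mem_inf, LinearMap.mem_ker, Matrix.toLin'_apply, Matrix.sub_mulVec,
      Matrix.smul_mulVec, Matrix.one_mulVec, sub_eq_zero]
  rcases hi W inf_le_left (fun s hs w hw => by
    rw [hWm] at hw ⊢
    refine ⟨?_, ?_⟩
    · rw [col_iff, Matrix.mulVec_mulVec, Ec_comm c i _ (hbd s), ← Matrix.mulVec_mulVec,
        Ec_col hw.1]
    · rw [Matrix.mulVec_mulVec, hM s hs, ← Matrix.mulVec_mulVec, hw.2, Matrix.mulVec_smul]) with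
    h | h
  · exfalso
    have h3 : (ex c i y : Fin n → ℂ) ∈ W := by
      rw [hWm]
      refine ⟨ex_mem_col i y, ?_⟩
      rw [mulVec_ex hMbd, hy1, map_smul]
    rw [h, Submodule.mem_bot] at h3
    exact hy.2 (ex_inj (by rw [h3, map_zero]))
  · refine ⟨z, mulVec_ext fun x => ?_⟩
    have h3 : Ec c i *ᵥ x ∈ W := by
      rw [h]
      exact Ec_mem i x
    have h4 := ((hWm _).1 h3).2
    rw [Matrix.mulVec_mulVec, h2] at h4
    rw [h4, Matrix.smul_mulVec]

end

section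
variable {ℓ : ℕ} [Fact ℓ.Prime] {n r : ℕ} {Γ : Type}
  [Group Γ] {c : Fin n → Fin r} {T : HS n} {β : Γ →* Matrix (Fin n) (Fin n) ℤ_[ℓ]}
  {j : ℚ_[ℓ] →+* ℂ}

/-- Non-isomorphism for all subgroups of finite index from non-isomorphism up to twists. -/
theorem noniso_of_twist (hg : GalT c T.Q β) (hQ : BD c T.Q) {i k : Fin r}
    (hi : Irr c (Rj β j) i) (hk : Irr c (Rj β j) k)
    (h : NonT c (Rj β j) i k) : NonIso c (Rj β j) i k := by
  intro Δ' hΔ' A hAs hcomm'
  by_contra hne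
  have hbd : ∀ s, BD c (Rj β j s) := fun s => hg.bdK j s
  obtain ⟨Δ, hΔd⟩ : ∃ Δ : Subgroup Γ, Δ = Δ'.normalCore := ⟨_, rfl⟩
  have hn : Δ.Normal := by rw [hΔd]; infer_instance
  have hΔ : Δ.FiniteIndex := by rw [hΔd]; infer_instance
  have hΔle : Δ ≤ Δ' := by rw [hΔd]; exact Subgroup.normalCore_le _
  have hcomm : ∀ s ∈ Δ, A * Rj β j s = Rj β j s * A := fun s hs => hcomm' s (hΔle hs)
  obtain ⟨R, hR⟩ : ∃ R : Γ →* Matrix (Fin n) (Fin n) ℂ, R = Rj β j := ⟨_, rfl⟩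
  rw [← hR] at hcomm h hi hk hbd
  obtain ⟨Q, hQd⟩ : ∃ Q, Q = mC T.Q := ⟨_, rfl⟩
  have hQbd : BD c Q := by
    intro a b hab
    rw [hQd, mC, Matrix.map_apply, hQ a b hab, Rat.cast_zero]
  have hQdet : IsUnit Q.det := by
    rw [isUnit_iff_ne_zero, hQd, det_mC]
    exact_mod_cast Pool.Agent.W74.PG.det_ne T
  have hQR : ∀ s, (R s)ᵀ * Q * R s = Q := by
    intro s
    have h1 := hg.formK j s
    rw [← mC_eq] at h1
    rw [hQd, hR]
    exact h1
  have hinv : ∀ s, R s * R s⁻¹ = 1 := fun s => by rw [← map_mul, mul_inv_cancel, map_one]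
  have hinv' : ∀ s, R s⁻¹ * R s = 1 := fun s => by rw [← map_mul, inv_mul_cancel, map_one]
  -- `(R s⁻¹)ᵀ Q = Q R s`
  have hQs : ∀ s, (R s⁻¹)ᵀ * Q = Q * R s := by
    intro s
    have h1 := hQR s⁻¹
    calc (R s⁻¹)ᵀ * Q = (R s⁻¹)ᵀ * Q * (R s⁻¹ * R s) := by rw [hinv', mul_one]
      _ = (R s⁻¹)ᵀ * Q * R s⁻¹ * R s := by simp only [Matrix.mul_assoc]
      _ = _ := by rw [h1]
  have hQi : ∀ s, Q⁻¹ * (R s⁻¹)ᵀ = R s * Q⁻¹ := by
    intro s
    calc Q⁻¹ * (R s⁻¹)ᵀ = Q⁻¹ * (R s⁻¹)ᵀ * (Q * Q⁻¹) := by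
          rw [Matrix.mul_nonsing_inv _ hQdet, mul_one]
      _ = Q⁻¹ * ((R s⁻¹)ᵀ * Q) * Q⁻¹ := by simp only [Matrix.mul_assoc]
      _ = Q⁻¹ * (Q * R s) * Q⁻¹ := by rw [hQs]
      _ = (Q⁻¹ * Q) * R s * Q⁻¹ := by simp only [Matrix.mul_assoc]
      _ = _ := by rw [Matrix.nonsing_inv_mul _ hQdet, one_mul]
  have hEQ : ∀ i, Ec c i * Q⁻¹ = Q⁻¹ * Ec c i := by
    intro i
    have h1 := Ec_comm c i Q hQbd
    calc Ec c i * Q⁻¹ = (Q⁻¹ * Q) * Ec c i * Q⁻¹ := by
          rw [Matrix.nonsing_inv_mul _ hQdet, one_mul]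
      _ = Q⁻¹ * (Q * Ec c i) * Q⁻¹ := by simp only [Matrix.mul_assoc]
      _ = Q⁻¹ * (Ec c i * Q) * Q⁻¹ := by rw [h1]
      _ = Q⁻¹ * Ec c i * (Q * Q⁻¹) := by simp only [Matrix.mul_assoc]
      _ = _ := by rw [Matrix.mul_nonsing_inv _ hQdet, mul_one]
  have hkA : Ec c k * A = A := Ec_left hAs
  have hAi : A * Ec c i = A := Ec_right hAs
  -- `A` is onto
  have hrange : LinearMap.range (Matrix.toLin' A) = Pool.Agent.Y95.MT.col c k := by
    rcases hk Δ hΔ (LinearMap.range (Matrix.toLin' A)) (by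
      rintro _ ⟨y, rfl⟩
      rw [Matrix.toLin'_apply, col_iff, Matrix.mulVec_mulVec, hkA]) (by
      rintro s hs _ ⟨y, rfl⟩
      refine ⟨R s *ᵥ y, ?_⟩
      rw [Matrix.toLin'_apply, Matrix.toLin'_apply, Matrix.mulVec_mulVec, Matrix.mulVec_mulVec,
        hcomm s hs]) with h3 | h3
    · exfalso
      apply hne
      refine mulVec_ext fun x => ?_
      have h4 : Matrix.toLin' A x ∈ LinearMap.range (Matrix.toLin' A) := ⟨x, rfl⟩
      rw [h3, Submodule.mem_bot, Matrix.toLin'_apply] at h4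
      rw [h4, Matrix.zero_mulVec]
    · exact h3
  obtain ⟨G, hG⟩ : ∃ G : Matrix (Fin n) (Fin n) ℂ, A * G = Ec c k := by
    have h3 : ∀ b, ∃ y : Fin n → ℂ, A *ᵥ y = Ec c k *ᵥ Pi.single b 1 := by
      intro b
      have h4 : Ec c k *ᵥ (Pi.single b 1 : Fin n → ℂ) ∈ LinearMap.range (Matrix.toLin' A) := by
        rw [hrange]
        exact Ec_mem k _
      obtain ⟨y, hy⟩ := h4
      exact ⟨y, hy⟩
    choose y hy using h3
    refine ⟨fun a b => y b a, ?_⟩
    ext a b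
    have h4 := congrFun (hy b) a
    rw [Matrix.mulVec_single_one] at h4
    exact h4
  have hL : ∀ B, Ec c k * B = B → Aᵀ * Q * B = 0 → B = 0 := by
    intro B hB hAB
    have h3 : Q * B = 0 := by
      calc Q * B = Q * (Ec c k * B) := by rw [hB]
        _ = (Q * Ec c k) * B := by rw [Matrix.mul_assoc]
        _ = (Ec c k * Q) * B := by rw [Ec_comm c k Q hQbd]
        _ = (A * G)ᵀ * Q * B := by rw [hG, Ec_T]
        _ = Gᵀ * (Aᵀ * Q * B) := by rw [Matrix.transpose_mul]; simp only [Matrix.mul_assoc]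
        _ = 0 := by rw [hAB, mul_zero]
    calc B = Q⁻¹ * (Q * B) := by rw [← Matrix.mul_assoc, Matrix.nonsing_inv_mul _ hQdet, one_mul]
      _ = 0 := by rw [h3, mul_zero]
  -- the pairing
  have hP : ∀ B, Ec c k * B = B → B * Ec c i = B → (∀ s ∈ Δ, B * R s = R s * B) →
      ∃ z : ℂ, Q⁻¹ * Aᵀ * Q * B = z • Ec c i := by
    intro B hB hBi hBs
    refine schur hbd (hi Δ hΔ) ?_ ?_ ?_
    · calc Ec c i * (Q⁻¹ * Aᵀ * Q * B) = (Ec c i * Q⁻¹) * Aᵀ * Q * B := by
            simp only [Matrix.mul_assoc]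
        _ = Q⁻¹ * (A * Ec c i)ᵀ * Q * B := by
            rw [hEQ, Matrix.transpose_mul, Ec_T]; simp only [Matrix.mul_assoc]
        _ = _ := by rw [hAi]
    · rw [Matrix.mul_assoc, hBi]
    · intro s hs
      calc Q⁻¹ * Aᵀ * Q * B * R s = Q⁻¹ * Aᵀ * Q * (B * R s) := by simp only [Matrix.mul_assoc]
        _ = Q⁻¹ * Aᵀ * (Q * R s) * B := by rw [hBs s hs]; simp only [Matrix.mul_assoc]
        _ = Q⁻¹ * (R s⁻¹ * A)ᵀ * Q * B := by
            rw [← hQs, Matrix.transpose_mul]; simp only [Matrix.mul_assoc]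
        _ = Q⁻¹ * (A * R s⁻¹)ᵀ * Q * B := by rw [hcomm s⁻¹ (Δ.inv_mem hs)]
        _ = (Q⁻¹ * (R s⁻¹)ᵀ) * Aᵀ * Q * B := by
            rw [Matrix.transpose_mul]; simp only [Matrix.mul_assoc]
        _ = _ := by rw [hQi]; simp only [Matrix.mul_assoc]
  obtain ⟨zA, hzA⟩ := hP A hkA hAi hcomm
  have hQM : ∀ B, Q * (Q⁻¹ * Aᵀ * Q * B) = Aᵀ * Q * B := by
    intro B
    calc Q * (Q⁻¹ * Aᵀ * Q * B) = (Q * Q⁻¹) * (Aᵀ * Q * B) := by simp only [Matrix.mul_assoc]
      _ = _ := by rw [Matrix.mul_nonsing_inv _ hQdet, one_mul]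
  have hzA0 : zA ≠ 0 := by
    rintro rfl
    apply hne
    refine hL A hkA ?_
    rw [← hQM, hzA, zero_smul, mul_zero]
  have hprop : ∀ B, Ec c k * B = B → B * Ec c i = B → (∀ s ∈ Δ, B * R s = R s * B) →
      ∃ z : ℂ, B = z • A := by
    intro B hB hBi hBs
    obtain ⟨zB, hzB⟩ := hP B hB hBi hBs
    refine ⟨zB / zA, ?_⟩
    rw [← sub_eq_zero]
    refine hL _ ?_ ?_
    · rw [Matrix.mul_sub, hB, Matrix.mul_smul, hkA]
    · rw [← hQM, Matrix.mul_sub, hzB, Matrix.mul_smul, hzA, smul_smul, div_mul_cancel₀ _ hzA0,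
        sub_self, mul_zero]
  -- the quadratic character
  have hz : ∀ g, ∃ z : ℂ, R g * A * R g⁻¹ = z • A ∧ z * z = 1 := by
    intro g
    have hEg : ∀ i, Ec c i * R g = R g * Ec c i := fun i => Ec_comm c i _ (hbd g)
    have hEg' : ∀ i, Ec c i * R g⁻¹ = R g⁻¹ * Ec c i := fun i => Ec_comm c i _ (hbd g⁻¹)
    obtain ⟨z, hz⟩ := hprop (R g * A * R g⁻¹) (by
      calc Ec c k * (R g * A * R g⁻¹) = (Ec c k * R g) * A * R g⁻¹ := by
            simp only [Matrix.mul_assoc]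
        _ = R g * (Ec c k * A) * R g⁻¹ := by rw [hEg]; simp only [Matrix.mul_assoc]
        _ = _ := by rw [hkA]) (by
      calc R g * A * R g⁻¹ * Ec c i = R g * A * (R g⁻¹ * Ec c i) := by
            simp only [Matrix.mul_assoc]
        _ = R g * (A * Ec c i) * R g⁻¹ := by rw [← hEg']; simp only [Matrix.mul_assoc]
        _ = _ := by rw [hAi]) (by
      intro s hs
      have h3 : g⁻¹ * s * g ∈ Δ := by
        have := hn.conj_mem s hs g⁻¹
        rwa [inv_inv] at this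
      have h4 := hcomm _ h3
      have h5 : R (g⁻¹ * s * g) = R g⁻¹ * R s * R g := by rw [map_mul, map_mul]
      rw [h5] at h4
      calc R g * A * R g⁻¹ * R s = R g * (A * (R g⁻¹ * R s * R g)) * R g⁻¹ := by
            simp only [Matrix.mul_assoc]
            rw [hinv, mul_one]
        _ = (R g * R g⁻¹) * R s * R g * A * R g⁻¹ := by rw [h4]; simp only [Matrix.mul_assoc]
        _ = _ := by rw [hinv, one_mul]; simp only [Matrix.mul_assoc])
    refine ⟨z, hz, ?_⟩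
    have h3 : (R g * A * R g⁻¹)ᵀ * Q * (R g * A * R g⁻¹) = Aᵀ * Q * A := by
      calc (R g * A * R g⁻¹)ᵀ * Q * (R g * A * R g⁻¹) =
            (R g⁻¹)ᵀ * (Aᵀ * ((R g)ᵀ * Q * R g) * A) * R g⁻¹ := by
            rw [Matrix.transpose_mul, Matrix.transpose_mul]; simp only [Matrix.mul_assoc]
        _ = (R g⁻¹)ᵀ * (Aᵀ * Q * A) * R g⁻¹ := by rw [hQR]
        _ = (R g⁻¹)ᵀ * (Q * (zA • Ec c i)) * R g⁻¹ := by rw [← hQM A, hzA]
        _ = zA • ((R g⁻¹)ᵀ * Q * (Ec c i * R g⁻¹)) := by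
            rw [Matrix.mul_smul, Matrix.mul_smul, Matrix.smul_mul]; simp only [Matrix.mul_assoc]
        _ = zA • ((R g⁻¹)ᵀ * Q * R g⁻¹ * Ec c i) := by rw [hEg']; simp only [Matrix.mul_assoc]
        _ = Q * (zA • Ec c i) := by rw [hQR, Matrix.mul_smul]
        _ = _ := by rw [← hzA, hQM]
    rw [hz, Matrix.transpose_smul, Matrix.smul_mul, Matrix.smul_mul, Matrix.mul_smul,
      smul_smul] at h3
    have h4 : (z * z - 1) • (Aᵀ * Q * A) = 0 := by rw [sub_smul, h3, one_smul, sub_self]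
    rcases smul_eq_zero.1 h4 with h5 | h5
    · exact sub_eq_zero.1 h5
    · exact absurd (hL A hkA h5) hne
  have hz' : ∀ g, ∃ z : ℂ, R g * A = z • (A * R g) ∧ z * z = 1 := by
    intro g
    obtain ⟨z, hz, hzz⟩ := hz g
    refine ⟨z, ?_, hzz⟩
    calc R g * A = R g * A * R g⁻¹ * R g := by rw [Matrix.mul_assoc _ (R g⁻¹), hinv', mul_one]
      _ = _ := by rw [hz, Matrix.smul_mul]
  refine hne (h A hAs fun g => ?_)
  obtain ⟨z, hz, hzz⟩ := hz' g
  rcases mul_self_eq_one_iff.1 hzz with h1 | h1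
  · left
    rw [hz, h1, one_smul]
  · right
    rw [hz, h1, neg_smul, one_smul, neg_neg]

end

end Q43.TB
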