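import Pool.Agent.Q43.TB.Tame
import Pool.Agent.Q43.TB.Non

/-!
# Summands with different eigenvalues
-/

set_option autoImplicit false

namespace Q43.TB

open Matrix Pool.Agent.W544.PG Q43.HTM Q43.FD Module
open Pool.Agent.W637.PG (Ec Ec_comm Ec_sq)

variable {n r : ℕ} {c : Fin n → Fin r} {Γ : Type} [Group Γ] {R : Γ →* Matrix (Fin n) (Fin n) ℂ}

/-- not isomorphic up to twists, by eigenvalues -/
theorem twist_of_roots (hbd : ∀ s, BD c (R s)) {i k : Fin r} (hi : IrrB c R i) (hk : IrrB c R k)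
    (h : Fintype.card {a // c a = i} = Fintype.card {a // c a = k} →
      ∃ (σ : Γ) (x : ℂ), (sm c i (R σ)).charpoly.IsRoot x ∧
        ¬ (sm c k (R σ)).charpoly.IsRoot x ∧ ¬ (sm c k (R σ)).charpoly.IsRoot (-x)) :
    NonT c R i k := by
  intro A hAs hs
  by_contra hne
  have hkA : Ec c k * A = A := Ec_left hAs
  have hAi : A * Ec c i = A := Ec_right hAs
  have hAk : ∀ w, A *ᵥ w ∈ (Pool.Agent.Y95.MT.col c k : Submodule ℂ (Fin n → ℂ)) := by
    intro w
    rw [col_iff, Matrix.mulVec_mulVec, hkA]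
  have hRcol : ∀ (l : Fin r) s w, w ∈ (Pool.Agent.Y95.MT.col c l : Submodule ℂ (Fin n → ℂ)) →
      R s *ᵥ w ∈ (Pool.Agent.Y95.MT.col c l : Submodule ℂ (Fin n → ℂ)) := by
    intro l s w hw
    rw [col_iff, Matrix.mulVec_mulVec, Ec_comm c l _ (hbd s), ← Matrix.mulVec_mulVec, Ec_col hw]
  -- the action on images
  have hact : ∀ s w, A *ᵥ (R s *ᵥ w) = R s *ᵥ (A *ᵥ w) ∨ A *ᵥ (R s *ᵥ w) = -(R s *ᵥ (A *ᵥ w)) := by
    intro s w
    rcases hs s with h1 | h1
    · left
      rw [Matrix.mulVec_mulVec, Matrix.mulVec_mulVec, h1]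
    · right
      rw [Matrix.mulVec_mulVec, Matrix.mulVec_mulVec, h1, Matrix.neg_mulVec]
  -- injective on `T_i`
  have hker : ∀ w ∈ (Pool.Agent.Y95.MT.col c i : Submodule ℂ (Fin n → ℂ)), A *ᵥ w = 0 → w = 0 := by
    rcases hi (Pool.Agent.Y95.MT.col c i ⊓ LinearMap.ker (Matrix.toLin' A)) inf_le_left
      (fun s w hw => by
        refine ⟨hRcol i s w hw.1, ?_⟩
        have h2 : A *ᵥ w = 0 := by
          have := hw.2
          rwa [SetLike.mem_coe, LinearMap.mem_ker, Matrix.toLin'_apply] at this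
        rw [SetLike.mem_coe, LinearMap.mem_ker, Matrix.toLin'_apply]
        rcases hact s w with h3 | h3
        · rw [h3, h2, Matrix.mulVec_zero]
        · rw [h3, h2, Matrix.mulVec_zero, neg_zero]) with h3 | h3
    · intro w hw hw0
      have h4 : w ∈ Pool.Agent.Y95.MT.col c i ⊓ LinearMap.ker (Matrix.toLin' A) :=
        ⟨hw, by rw [SetLike.mem_coe, LinearMap.mem_ker, Matrix.toLin'_apply]; exact hw0⟩
      rw [h3] at h4
      exact (Submodule.mem_bot ℂ).1 h4
    · exfalso
      apply hne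
      refine mulVec_ext fun x => ?_
      have h4 := Ec_mem (c := c) i x
      rw [← h3] at h4
      have h5 := h4.2
      rw [SetLike.mem_coe, LinearMap.mem_ker, Matrix.toLin'_apply, Matrix.mulVec_mulVec, hAi] at h5
      rw [h5, Matrix.zero_mulVec]
  -- the ranks
  have hcard : Fintype.card {a // c a = i} = Fintype.card {a // c a = k} := by
    let G : ({a // c a = i} → ℂ) →ₗ[ℂ] (Fin n → ℂ) := (Matrix.toLin' A).comp (ex c i)
    have hG : ∀ y, G y = A *ᵥ ex c i y := fun y => Matrix.toLin'_apply A _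
    have hGinj : Function.Injective G := by
      rw [← LinearMap.ker_eq_bot, LinearMap.ker_eq_bot']
      intro y hy
      rw [hG] at hy
      exact ex_inj (by rw [hker _ (ex_mem_col i y) hy, map_zero])
    have hexinj : Function.Injective (ex c k : ({a // c a = k} → ℂ) →ₗ[ℂ] (Fin n → ℂ)) :=
      fun y z hyz => ex_inj hyz
    have hrange : LinearMap.range G = Pool.Agent.Y95.MT.col c k := by
      rcases hk (LinearMap.range G) (by
        rintro _ ⟨y, rfl⟩
        rw [hG]
        exact hAk _) (by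
        rintro s _ ⟨y, rfl⟩
        rw [hG]
        rcases hact s (ex c i y) with h3 | h3
        · exact ⟨sm c i (R s) *ᵥ y, by rw [hG, ← mulVec_ex (hbd s), h3]⟩
        · refine ⟨-(sm c i (R s) *ᵥ y), ?_⟩
          rw [map_neg, hG, ← mulVec_ex (hbd s), h3, neg_neg]) with h3 | h3
      · exfalso
        apply hne
        refine mulVec_ext fun x => ?_
        obtain ⟨y, hy⟩ := exists_ex (Ec_mem (c := c) i x)
        have h6 : G y ∈ LinearMap.range G := ⟨_, rfl⟩
        rw [h3, Submodule.mem_bot, hG, ← hy, Matrix.mulVec_mulVec, hAi] at h6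
        rw [h6, Matrix.zero_mulVec]
      · exact h3
    have hrange' : LinearMap.range (ex c k : ({a // c a = k} → ℂ) →ₗ[ℂ] (Fin n → ℂ)) =
        Pool.Agent.Y95.MT.col c k := by
      ext w
      constructor
      · rintro ⟨y, rfl⟩
        exact ex_mem_col k y
      · intro hw
        obtain ⟨y, rfl⟩ := exists_ex hw
        exact ⟨y, rfl⟩
    have h3 := LinearMap.finrank_range_of_inj hGinj
    have h4 := LinearMap.finrank_range_of_inj hexinj
    rw [hrange, Module.finrank_fintype_fun_eq_card] at h3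
    rw [hrange', Module.finrank_fintype_fun_eq_card] at h4
    rw [← h3, h4]
  obtain ⟨s, x, hx, hx1, hx2⟩ := h hcard
  obtain ⟨y, hy⟩ : ∃ y, Module.End.HasEigenvector (Matrix.toLin' (sm c i (R s))) x y := by
    apply Module.End.HasEigenvalue.exists_hasEigenvector
    rw [Module.End.hasEigenvalue_iff_isRoot_charpoly, Matrix.charpoly_toLin']
    exact hx
  have hy1 : sm c i (R s) *ᵥ y = x • y := by
    have := hy.apply_eq_smul
    rwa [Matrix.toLin'_apply] at this
  have hw0 : (ex c i y : Fin n → ℂ) ≠ 0 := fun h0 => hy.2 (ex_inj (by rw [h0, map_zero]))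
  have hws : R s *ᵥ ex c i y = x • (ex c i y : Fin n → ℂ) := by
    rw [mulVec_ex (hbd s), hy1, map_smul]
  obtain ⟨z, hz⟩ := exists_ex (hAk (ex c i y))
  have hz0 : z ≠ 0 := by
    rintro rfl
    rw [map_zero] at hz
    exact hw0 (hker _ (ex_mem_col i y) hz)
  have hroot : ∀ x' : ℂ, R s *ᵥ (A *ᵥ ex c i y) = x' • (A *ᵥ ex c i y) →
      (sm c k (R s)).charpoly.IsRoot x' := by
    intro x' hx'
    rw [← Matrix.charpoly_toLin', ← Module.End.hasEigenvalue_iff_isRoot_charpoly]
    refine Module.End.hasEigenvalue_of_hasEigenvector (x := z)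
      ⟨Module.End.mem_eigenspace_iff.2 ?_, hz0⟩
    rw [Matrix.toLin'_apply]
    apply ex_inj
    rw [← mulVec_ex (hbd s), ← hz, hx', map_smul, ← hz]
  rcases hact s (ex c i y) with h3 | h3
  · rw [hws, Matrix.mulVec_smul] at h3
    exact hx1 (hroot x h3.symm)
  · rw [hws, Matrix.mulVec_smul] at h3
    refine hx2 (hroot (-x) ?_)
    rw [neg_smul, h3, neg_neg]

end Q43.TB
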