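import Pool.Agent.Q43.TB.Fix
import Pool.Agent.Q227.CD.Orb

/-!
# Irreducibility from the tame relation
-/

set_option autoImplicit false

namespace Q43.TB

open Polynomial Module

section
variable {k : Type} [Field k] [IsAlgClosed k] {V : Type} [AddCommGroup V] [Module k V]
  [FiniteDimensional k V] {Γ : Type} [Group Γ] (ρ : Γ →* Module.End k V)

lemma roots_pow_end (f : Module.End k V) (m : ℕ) :
    (f ^ m).charpoly.roots = f.charpoly.roots.map fun x => x ^ m := by
  have b := Module.finBasis k V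
  rw [← LinearMap.charpoly_toMatrix f b, ← LinearMap.charpoly_toMatrix (f ^ m) b,
    ← LinearMap.toMatrix_pow, Pool.Agent.Q227.CD.charpoly_pow]
  have h : ((LinearMap.toMatrix b b f).charpoly.roots.map fun x => X - C (x ^ m)) =
      (((LinearMap.toMatrix b b f).charpoly.roots.map fun x => x ^ m).map fun a => X - C a) := by
    rw [Multiset.map_map]
    rfl
  rw [h, roots_multiset_prod_X_sub_C]

/-- no multiset of `d` roots is stable under the power map -/
def NoStable (P : k[X]) (q d : ℕ) : Prop :=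
  ∀ R : Multiset k, R ≤ P.roots → Multiset.card R = d → (R.map fun x => x ^ q) ≠ R

/-- the tame relation excludes dimensions -/
theorem tame_dim {τ φ : Γ} {q d : ℕ} (h : ρ (φ * τ) = ρ (τ ^ q * φ))
    (hd : NoStable (ρ τ).charpoly q d) {W : Submodule k V} (hW : ∀ g, ∀ x ∈ W, ρ g x ∈ W) :
    finrank k W ≠ d := by
  intro hWd
  obtain ⟨f, hf⟩ : ∃ f : Module.End k W, f = (ρ τ).restrict (hW τ) := ⟨_, rfl⟩
  have hfv : ∀ w : W, (f w : V) = ρ τ w := by
    intro w
    rw [hf]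
    rfl
  have hfm : ∀ (m : ℕ) (w : W), ((f ^ m) w : V) = (ρ τ ^ m) w := by
    intro m
    induction m with
    | zero => intro w; rfl
    | succ m ih => intro w; rw [pow_succ, pow_succ, Module.End.mul_apply, Module.End.mul_apply, ih, hfv]
  let e : W ≃ₗ[k] W :=
    { (ρ φ).restrict (hW φ) with
      invFun := (ρ φ⁻¹).restrict (hW φ⁻¹)
      left_inv := fun w => Subtype.ext (rho_inv_apply φ w.1)
      right_inv := fun w => Subtype.ext (rho_inv_apply' φ w.1) }
  have hev : ∀ w : W, (e w : V) = ρ φ w := fun _ => rfl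
  have hconj : e.conj f = f ^ q := by
    apply LinearMap.ext
    intro w
    apply Subtype.ext
    obtain ⟨w', rfl⟩ := e.surjective w
    rw [LinearEquiv.conj_apply_apply, LinearEquiv.symm_apply_apply, hev, hfv, hfm, hev]
    have h1 := LinearMap.congr_fun h w'.1
    rw [map_mul, map_mul, map_pow] at h1
    exact h1
  have h1 : (f ^ q).charpoly = f.charpoly := by rw [← hconj, LinearEquiv.charpoly_conj]
  refine hd f.charpoly.roots ?_ ?_ ?_
  · have h2 := Pool.Agent.W522.C.charpoly_eq_mul (ρ τ) W (hW τ)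
    rw [← hf] at h2
    have h3 : (ρ τ).charpoly ≠ 0 := (LinearMap.charpoly_monic _).ne_zero
    rw [h2] at h3 ⊢
    rw [roots_mul h3]
    exact Multiset.le_add_right _ _
  · rw [splits_iff_card_roots.1 (IsAlgClosed.splits _), LinearMap.charpoly_natDegree, hWd]
  · rw [← roots_pow_end, h1]

/-- Irreducibility from the tame relation. -/
theorem irrG_even (h : ∀ d, 0 < d → d < finrank k V → ∃ (τ φ : Γ) (q : ℕ),
    ρ (φ * τ) = ρ (τ ^ q * φ) ∧ NoStable (ρ τ).charpoly q d) : IrrG ρ := by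
  intro W hW
  by_cases h0 : W = ⊥
  · exact Or.inl h0
  by_cases h1 : W = ⊤
  · exact Or.inr h1
  exfalso
  have h2 : 0 < finrank k W := by
    have : Nontrivial W := (Submodule.nontrivial_iff_ne_bot).2 h0
    exact finrank_pos
  obtain ⟨τ, φ, q, h3, h4⟩ := h _ h2 (Submodule.finrank_lt h1)
  exact tame_dim ρ h3 h4 hW rfl

omit [IsAlgClosed k] in
/-- there is no stable line -/
theorem no_line [CharZero k] {b : V →ₗ[k] V →ₗ[k] k} (hb : ∀ x, (∀ y, b x y = 0) → x = 0)
    (hρ : ∀ s x y, b (ρ s x) (ρ s y) = b x y) {τ φ : Γ} {q : ℕ}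
    (h : ρ (φ * τ) = ρ (τ ^ q * φ))
    (h1 : ∀ x, (ρ τ).charpoly.IsRoot x → x ^ q = x →
      x * x = 1 ∧ (ρ τ).charpoly.rootMultiplicity x = 1)
    (h2 : ∀ v, (∀ s, ρ s v = v ∨ ρ s v = -v) → v = 0)
    {W : Submodule k V} (hW : ∀ g, ∀ x ∈ W, ρ g x ∈ W) : finrank k W ≠ 1 := by
  intro hd
  obtain ⟨v, hv, hv0, hvs⟩ : ∃ v ∈ W, v ≠ 0 ∧ ∀ x ∈ W, ∃ c : k, x = c • v := by
    obtain ⟨v, hv0, hv⟩ := finrank_eq_one_iff'.1 hd
    refine ⟨v, v.2, fun h0 => hv0 (Subtype.ext h0), fun x hx => ?_⟩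
    obtain ⟨c, hc⟩ := hv ⟨x, hx⟩
    exact ⟨c, (congrArg Subtype.val hc).symm⟩
  have hline : ∀ s, ∃ c : k, ρ s v = c • v := fun s => hvs _ (hW s v hv)
  obtain ⟨x, hx⟩ := hline τ
  obtain ⟨y, hy⟩ := hline φ
  have hy0 : y ≠ 0 := by
    rintro rfl
    rw [zero_smul] at hy
    apply hv0
    rw [← rho_inv_apply (ρ := ρ) φ v, hy, map_zero]
  have hpow : ∀ m : ℕ, (ρ τ ^ m) v = x ^ m • v := by
    intro m
    induction m with
    | zero => rw [pow_zero, pow_zero, one_smul]; rfl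
    | succ m ih => rw [pow_succ, Module.End.mul_apply, hx, map_smul, ih, smul_smul, pow_succ, mul_comm]
  have hxq : x ^ q = x := by
    have h3 := LinearMap.congr_fun h v
    rw [map_mul, map_mul, map_pow, Module.End.mul_apply, Module.End.mul_apply, hx, hy, map_smul,
      map_smul, hy, hpow, smul_smul, smul_smul] at h3
    have h4 : (x * y - y * x ^ q) • v = 0 := by rw [sub_smul, h3, sub_self]
    have h5 := (smul_eq_zero.1 h4).resolve_right hv0
    have h6 : y * (x ^ q - x) = 0 := by linear_combination -h5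
    exact sub_eq_zero.1 ((mul_eq_zero.1 h6).resolve_left hy0)
  have hroot : (ρ τ).charpoly.IsRoot x := by
    rw [← Module.End.hasEigenvalue_iff_isRoot_charpoly]
    exact Module.End.hasEigenvalue_of_hasEigenvector (x := v)
      ⟨Module.End.mem_eigenspace_iff.2 hx, hv0⟩
  obtain ⟨hxx, hmul⟩ := h1 x hroot hxq
  obtain ⟨R, hR, hR'⟩ := exists_eq_pow_rootMultiplicity_mul_and_not_dvd (ρ τ).charpoly
    (LinearMap.charpoly_monic _).ne_zero x
  rw [hmul, pow_one] at hR
  obtain ⟨v₀, hv₀, hv₀', hvv⟩ := Pool.Agent.Y134.TF.exists_vector hb (hρ τ) hxx hR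
    (fun h0 => hR' (dvd_iff_isRoot.2 h0))
  -- the eigenspace is a line
  have hfin : finrank k (Module.End.eigenspace (ρ τ) x) ≤ 1 := by
    rw [← hmul]
    exact LinearMap.finrank_eigenspace_le _ _
  have hvv' : b v v ≠ 0 := by
    have hle : W ≤ Module.End.eigenspace (ρ τ) x := by
      intro w hw
      obtain ⟨c, rfl⟩ := hvs w hw
      rw [Module.End.mem_eigenspace_iff, map_smul, hx, smul_comm]
    have h3 : W = Module.End.eigenspace (ρ τ) x :=
      Submodule.eq_of_le_of_finrank_le hle (by rw [hd]; exact hfin)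
    have h4 : v₀ ∈ W := by
      rw [h3, Module.End.mem_eigenspace_iff]
      exact hv₀'
    obtain ⟨c, hc⟩ := hvs v₀ h4
    intro h0
    apply hvv
    rw [hc, map_smul, map_smul, LinearMap.smul_apply, h0, smul_zero, smul_zero]
  refine hv0 (h2 v fun s => ?_)
  obtain ⟨c, hc⟩ := hline s
  have h3 := hρ s v v
  rw [hc, map_smul, map_smul, LinearMap.smul_apply, smul_eq_mul, smul_eq_mul] at h3
  have h4 : (c * c - 1) * b v v = 0 := by linear_combination h3
  have h5 : c * c = 1 := sub_eq_zero.1 ((mul_eq_zero.1 h4).resolve_right hvv')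
  rcases mul_self_eq_one_iff.1 h5 with h6 | h6
  · left
    rw [hc, h6, one_smul]
  · right
    rw [hc, h6, neg_smul, one_smul]

/-- Irreducibility from the tame relation, if there are eigenvalues `1` and `-1`. -/
theorem irrG_odd [CharZero k] {b : V →ₗ[k] V →ₗ[k] k} (hb : ∀ x, (∀ y, b x y = 0) → x = 0)
    (hsym : ∀ x y, b x y = b y x) (hρ : ∀ s x y, b (ρ s x) (ρ s y) = b x y) {τ φ : Γ} {q : ℕ}
    (h : ρ (φ * τ) = ρ (τ ^ q * φ))
    (h1 : ∀ x, (ρ τ).charpoly.IsRoot x → x ^ q = x →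
      x * x = 1 ∧ (ρ τ).charpoly.rootMultiplicity x = 1)
    (h2 : ∀ v, (∀ s, ρ s v = v ∨ ρ s v = -v) → v = 0)
    (h3 : ∀ d, 1 < d → d + 1 < finrank k V → ∃ (τ φ : Γ) (q : ℕ),
      ρ (φ * τ) = ρ (τ ^ q * φ) ∧ NoStable (ρ τ).charpoly q d) : IrrG ρ := by
  intro W hW
  by_cases h0 : W = ⊥
  · exact Or.inl h0
  by_cases ht : W = ⊤
  · exact Or.inr ht
  exfalso
  have hpos : 0 < finrank k W := by
    have : Nontrivial W := (Submodule.nontrivial_iff_ne_bot).2 h0
    exact finrank_pos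
  have hlt := Submodule.finrank_lt ht
  by_cases h5 : finrank k W = 1
  · exact no_line ρ hb hρ h h1 h2 hW h5
  by_cases h6 : finrank k W + 1 = finrank k V
  · have hnd : LinearMap.BilinForm.Nondegenerate b :=
      ⟨fun x hx => hb x hx, fun y hy => hb y fun x => by rw [hsym]; exact hy x⟩
    have h7 := LinearMap.BilinForm.finrank_orthogonal hnd W
    refine no_line ρ hb hρ h h1 h2 (W := LinearMap.BilinForm.orthogonal b W) ?_
      (by rw [h7]; omega)
    intro u x hx
    rw [LinearMap.BilinForm.mem_orthogonal_iff] at hx ⊢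
    intro y hy
    have h8 : ρ u⁻¹ y ∈ W := hW _ y hy
    have h9 := hx _ h8
    change b (ρ u⁻¹ y) x = 0 at h9
    change b y (ρ u x) = 0
    rw [← h9, ← hρ u (ρ u⁻¹ y) x, rho_inv_apply']
  · obtain ⟨τ, φ, q, h7, h8⟩ := h3 _ (by omega : 1 < finrank k W) (by omega)
    exact tame_dim ρ h7 h8 hW rfl

end

section
open Matrix Pool.Agent.W544.PG Q43.HTM Q43.FD
open Pool.Agent.Y95.MT (GalT qm mC_eq)

variable {ℓ : ℕ} [Fact ℓ.Prime] {n r : ℕ} {Γ : Type}
  [Group Γ] {c : Fin n → Fin r} {T : HS n} {β : Γ →* Matrix (Fin n) (Fin n) ℤ_[ℓ]}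
  {j : ℚ_[ℓ] →+* ℂ}

lemma irrB_of {R : Γ →* Matrix (Fin n) (Fin n) ℂ} (hbd : ∀ s, BD c (R s)) (i : Fin r)
    (h : IrrG (endRep (smRep R hbd i))) : IrrB c R i := by
  intro W hWc hW
  rcases h (W.comap (ex c i)) (fun s w hw => by
    change ex c i (endRep (smRep R hbd i) s w) ∈ W
    rw [ex_endRep]
    exact hW s _ hw) with h1 | h1
  · left
    rw [eq_bot_iff]
    intro w hw
    obtain ⟨y, rfl⟩ := exists_ex (hWc hw)
    have h2 : y ∈ W.comap (ex c i) := hw
    rw [h1, Submodule.mem_bot] at h2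
    rw [h2, map_zero]
    exact Submodule.zero_mem _
  · right
    refine le_antisymm hWc fun w hw => ?_
    obtain ⟨y, rfl⟩ := exists_ex hw
    have h2 : y ∈ W.comap (ex c i) := by rw [h1]; trivial
    exact h2

/-- the tame conditions on one summand of rank `N` -/
def TameC (c : Fin n → Fin r) (R : Γ →* Matrix (Fin n) (Fin n) ℂ) (i : Fin r) (N : ℕ) : Prop :=
  (∀ d, 0 < d → d < N → ∃ (τ φ : Γ) (q : ℕ), sm c i (R (φ * τ)) = sm c i (R (τ ^ q * φ)) ∧
    NoStable (sm c i (R τ)).charpoly q d) ∨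
  ((∀ d, 1 < d → d + 1 < N → ∃ (τ φ : Γ) (q : ℕ), sm c i (R (φ * τ)) = sm c i (R (τ ^ q * φ)) ∧
    NoStable (sm c i (R τ)).charpoly q d) ∧
  (∃ (τ φ : Γ) (q : ℕ), sm c i (R (φ * τ)) = sm c i (R (τ ^ q * φ)) ∧
    ∀ x, (sm c i (R τ)).charpoly.IsRoot x → x ^ q = x →
      x * x = 1 ∧ (sm c i (R τ)).charpoly.rootMultiplicity x = 1) ∧
  ∀ v : {a // c a = i} → ℂ, (∀ s, sm c i (R s) *ᵥ v = v ∨ sm c i (R s) *ᵥ v = -v) → v = 0)

theorem irrB_tame (hg : GalT c T.Q β) (hQ : BD c T.Q) {i : Fin r}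
    (h : TameC c (Rj β j) i (Fintype.card {a // c a = i})) : IrrB c (Rj β j) i := by
  have hbd : ∀ s, BD c (Rj β j s) := fun s => hg.bdK j s
  have hcard : finrank ℂ ({a // c a = i} → ℂ) = Fintype.card {a // c a = i} :=
    Module.finrank_fintype_fun_eq_card _
  have hcp : ∀ s, (endRep (smRep (Rj β j) hbd i) s).charpoly = (sm c i (Rj β j s)).charpoly := by
    intro s
    exact Matrix.charpoly_toLin' _
  have hrel : ∀ s t, sm c i (Rj β j s) = sm c i (Rj β j t) →
      endRep (smRep (Rj β j) hbd i) s = endRep (smRep (Rj β j) hbd i) t := by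
    intro s t hst
    change Matrix.toLin' (sm c i (Rj β j s)) = Matrix.toLin' (sm c i (Rj β j t))
    rw [hst]
  refine irrB_of hbd i ?_
  rcases h with h | ⟨h1, ⟨τ, φ, q, h2, h3⟩, h4⟩
  · refine irrG_even _ fun d hd hd' => ?_
    rw [hcard] at hd'
    obtain ⟨τ, φ, q, h2, h3⟩ := h d hd hd'
    exact ⟨τ, φ, q, hrel _ _ h2, by rw [hcp]; exact h3⟩
  · let Q : Matrix {a // c a = i} {a // c a = i} ℂ := sm c i (T.Q.map (algebraMap ℚ ℂ))
    have hQbd : BD c (T.Q.map (algebraMap ℚ ℂ)) := by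
      intro a b hab
      rw [Matrix.map_apply, hQ a b hab, map_zero]
    have hQdet : Q.det ≠ 0 := by
      apply sm_det hQbd
      have h1 : (T.Q.map (algebraMap ℚ ℂ)).det = algebraMap ℚ ℂ T.Q.det :=
        (RingHom.map_det (algebraMap ℚ ℂ) T.Q).symm
      rw [h1]
      intro h0
      exact Pool.Agent.W74.PG.det_ne T ((algebraMap ℚ ℂ).injective (by rw [h0, map_zero]))
    have hMQ : ∀ s, (sm c i (Rj β j s))ᵀ * Q * sm c i (Rj β j s) = Q := by
      intro s
      have h1 := congrArg (sm c i) (hg.formK j s)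
      have h2 : (sm c i (Rj β j s))ᵀ = sm c i ((qm (β s)).map j)ᵀ := rfl
      rw [h2, ← sm_mul hQbd, ← sm_mul (hbd s)]
      exact h1
    have hQs : Qᵀ = Q := by
      ext a b
      change algebraMap ℚ ℂ (T.Q b.1 a.1) = algebraMap ℚ ℂ (T.Q a.1 b.1)
      congr 1
      exact congrFun (congrFun T.symm a.1) b.1
    refine irrG_odd (b := Matrix.toBilin' Q) _ ?_ ?_ ?_ (hrel _ _ h2) (by rw [hcp]; exact h3)
      (fun v hv => h4 v hv) (fun d hd hd' => ?_)
    · intro x hx
      have h4 : Qᵀ *ᵥ x = 0 := by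
        funext a
        have h5 := hx (Pi.single a 1)
        rw [Matrix.toBilin'_apply', Matrix.dotProduct_mulVec, dotProduct_single, mul_one] at h5
        rw [Matrix.mulVec_transpose]
        exact h5
      exact Matrix.eq_zero_of_mulVec_eq_zero (by rwa [Matrix.det_transpose]) h4
    · intro x y
      rw [Matrix.toBilin'_apply', Matrix.toBilin'_apply', Matrix.dotProduct_mulVec,
        ← Matrix.mulVec_transpose, hQs, dotProduct_comm]
    · intro s x y
      change Matrix.toBilin' Q (sm c i (Rj β j s) *ᵥ x) (sm c i (Rj β j s) *ᵥ y) = _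
      rw [Matrix.toBilin'_apply', Matrix.toBilin'_apply']
      conv_rhs => rw [← hMQ s]
      rw [← Matrix.mulVec_mulVec, ← Matrix.mulVec_mulVec, Matrix.dotProduct_mulVec x,
        Matrix.vecMul_transpose]
    · rw [hcard] at hd'
      obtain ⟨τ, φ, q, h5, h6⟩ := h1 d hd hd'
      exact ⟨τ, φ, q, hrel _ _ h5, by rw [hcp]; exact h6⟩

end

end Q43.TB
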